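import Pool.Agent.H258.RH.Tame
import Pool.Graph.R_seed8.W726.NS.MainAbs

/-! The dichotomy for orbits of an automorphism of a countable group in which commutation is a
transitive relation on the nontrivial elements. -/

set_option autoImplicit false
set_option linter.unusedSectionVars false

namespace Pool.Agent.H258.RH

open Set

variable {G : Type} [Group G]

/-- commutation is transitive on the nontrivial elements -/
def CT (G : Type) [Group G] : Prop :=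
  ∀ h : G, h ≠ 1 → ∀ x y : G, Commute x h → Commute y h → Commute x y

/-- the centraliser of `h` -/
abbrev Cen (h : G) : Subgroup G := Subgroup.centralizer {h}

lemma mem_Cen {h g : G} : g ∈ Cen h ↔ Commute g h := by
  rw [Subgroup.mem_centralizer_singleton_iff]
  exact ⟨fun h1 => h1, fun h1 => h1⟩

lemma Cen_map (σ : MulAut G) (h g : G) : σ g ∈ Cen (σ h) ↔ g ∈ Cen h := by
  rw [mem_Cen, mem_Cen]
  constructor
  · intro h1
    have h2 : σ (g * h) = σ (h * g) := by rw [map_mul, map_mul]; exact h1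
    exact σ.injective h2
  · intro h1
    exact h1.map σ

lemma Cen_eq (ct : CT G) {h k z : G} (hh : h ≠ 1) (hk : k ≠ 1) (hz : z ≠ 1) (h1 : z ∈ Cen h)
    (h2 : z ∈ Cen k) : Cen h = Cen k := by
  rw [mem_Cen] at h1 h2
  have h3 : Commute h k := ct z hz h k h1.symm h2.symm
  ext x
  rw [mem_Cen, mem_Cen]
  exact ⟨fun h4 => ct h hh x k h4 h3.symm, fun h4 => ct k hk x h h4 h3⟩

/-- the line through `y` in direction `h` -/
def Lset (x : ℕ → G) (y h : G) : Set ℕ := {n | y⁻¹ * x n ∈ Cen h}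

lemma line_eq {x : ℕ → G} (hx : Function.Injective x) (ct : CT G) {y h y' h' : G}
    (hh : h ≠ 1) (hh' : h' ≠ 1) (hinf : (Lset x y h ∩ Lset x y' h').Infinite) :
    Cen h = Cen h' ∧ y⁻¹ * y' ∈ Cen h := by
  obtain ⟨n0, h3, h4⟩ := hinf.nonempty
  obtain ⟨n, ⟨h1, h2⟩, hne⟩ := hinf.exists_notMem_finite (finite_singleton n0)
  have hz : (x n0)⁻¹ * x n ≠ 1 := by
    intro h5
    rw [inv_mul_eq_one] at h5
    exact hne (hx h5).symm
  have m1 : (x n0)⁻¹ * x n ∈ Cen h := by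
    have e : (x n0)⁻¹ * x n = (y⁻¹ * x n0)⁻¹ * (y⁻¹ * x n) := by group
    rw [e]
    exact (Cen h).mul_mem ((Cen h).inv_mem h3) h1
  have m2 : (x n0)⁻¹ * x n ∈ Cen h' := by
    have e : (x n0)⁻¹ * x n = (y'⁻¹ * x n0)⁻¹ * (y'⁻¹ * x n) := by group
    rw [e]
    exact (Cen h').mul_mem ((Cen h').inv_mem h4) h2
  have e3 := Cen_eq ct hh hh' hz m1 m2
  refine ⟨e3, ?_⟩
  have h6 : y'⁻¹ * x n0 ∈ Cen h := by rw [e3]; exact h4
  have e : y⁻¹ * y' = (y⁻¹ * x n0) * (y'⁻¹ * x n0)⁻¹ := by group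
  rw [e]
  exact (Cen h).mul_mem h3 ((Cen h).inv_mem h6)

/-- the infinite lines -/
def Lines (x : ℕ → G) : Set (Set ℕ) :=
  {L | ∃ y h : G, h ≠ 1 ∧ L = Lset x y h ∧ L.Infinite}

lemma lines_inter {x : ℕ → G} (hx : Function.Injective x) (ct : CT G) {L L' : Set ℕ}
    (hL : L ∈ Lines x) (hL' : L' ∈ Lines x) (hne : L ≠ L') : (L ∩ L').Finite := by
  obtain ⟨y, h, hh, rfl, -⟩ := hL
  obtain ⟨y', h', hh', rfl, -⟩ := hL'
  by_contra hinf
  obtain ⟨e, hy⟩ := line_eq hx ct hh hh' hinf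
  apply hne
  ext n
  show y⁻¹ * x n ∈ Cen h ↔ y'⁻¹ * x n ∈ Cen h'
  rw [← e]
  have e2 : y⁻¹ * x n = (y⁻¹ * y') * (y'⁻¹ * x n) := by group
  rw [e2]
  exact (Cen h).mul_mem_cancel_left hy

lemma lines_finite [Countable G] {x : ℕ → G} (hx : Function.Injective x) (ct : CT G)
    (ha : ∀ S : Set ℕ, S.Infinite → ∃ L ∈ Lines x, (S ∩ L).Infinite) : (Lines x).Finite := by
  classical
  by_contra hinf
  have hcount : (Lines x).Countable := by
    have : Lines x ⊆ range (fun p : G × G => Lset x p.1 p.2) := by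
      rintro L ⟨y, h, -, rfl, -⟩
      exact ⟨(y, h), rfl⟩
    exact (countable_range _).mono this
  have hc : Countable (Lines x) := hcount.to_subtype
  have hi : Infinite (Lines x) := Set.Infinite.to_subtype hinf
  obtain ⟨hden⟩ := nonempty_denumerable (Lines x)
  let e : Lines x ≃ ℕ := Denumerable.eqv _
  let f : ℕ → Set ℕ := fun k => (e.symm k : Set ℕ)
  have hfmem : ∀ k, f k ∈ Lines x := fun k => (e.symm k).2
  have hfinj : ∀ i j, f i = f j → i = j := by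
    intro i j hij
    exact e.symm.injective (Subtype.ext hij)
  have hfinf : ∀ k, (f k \ ⋃ i ∈ Finset.range k, f i).Infinite := by
    intro k
    obtain ⟨y, h, hh, e1, h1⟩ := hfmem k
    have h2 : (f k ∩ ⋃ i ∈ Finset.range k, f i).Finite := by
      rw [inter_iUnion₂]
      refine (Finset.finite_toSet _).biUnion (fun i hi => ?_)
      refine lines_inter hx ct (hfmem k) (hfmem i) (fun heq => ?_)
      have := hfinj _ _ heq
      have h3 := Finset.mem_range.mp hi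
      omega
    intro h3
    exact h1 ((h3.union h2).subset (fun n hn => by
      by_cases h4 : n ∈ ⋃ i ∈ Finset.range k, f i
      · exact Or.inr ⟨hn, h4⟩
      · exact Or.inl ⟨hn, h4⟩))
  choose n hn hnk using fun k => (hfinf k).exists_gt k
  have hSinf : (range n).Infinite := by
    apply infinite_of_not_bddAbove
    rintro ⟨B, hB⟩
    have := hB ⟨B, rfl⟩
    have h2 := hnk B
    omega
  obtain ⟨L, hL, hSL⟩ := ha _ hSinf
  obtain ⟨i, hi⟩ : ∃ i, f i = L := ⟨e ⟨L, hL⟩, by simp [f]⟩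
  apply hSL
  refine ((Finset.range (i + 1)).finite_toSet.image n).subset ?_
  rintro m ⟨⟨k, rfl⟩, hm⟩
  refine ⟨k, ?_, rfl⟩
  rw [Finset.mem_coe, Finset.mem_range]
  by_contra hcon
  have h1 : i < k := by omega
  refine (hn k).2 ?_
  exact mem_biUnion (x := i) (by simpa using h1) (by rw [hi]; exact hm)

/-- **The dichotomy.** -/
theorem dichotomy [Countable G] (ct : CT G) (P : Set (Subgroup G))
    (hP : ∀ H ∈ P, ∃ h : G, h ≠ 1 ∧ H ≤ Cen h) (σ : MulAut G) (g : G)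
    (hx : Function.Injective (fun n : ℕ => (σ ^ n) g)) :
    (∃ S : Set ℕ, S.Infinite ∧ ∀ H ∈ P, ∀ y : G, {n ∈ S | y⁻¹ * (σ ^ n) g ∈ H}.Finite) ∨
      ∃ D : ℕ, 0 < D ∧ ∃ h : G, h ≠ 1 ∧ (∀ z, (σ ^ D) z ∈ Cen h ↔ z ∈ Cen h) ∧
        g⁻¹ * (σ ^ D) g ∈ Cen h := by
  classical
  by_cases hgood : ∃ S : Set ℕ, S.Infinite ∧ ∀ H ∈ P, ∀ y : G,
    {n ∈ S | y⁻¹ * (σ ^ n) g ∈ H}.Finite
  · exact Or.inl hgood
  right
  push Not at hgood
  set x : ℕ → G := fun n : ℕ => (σ ^ n) g with hxdef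
  have ha : ∀ S : Set ℕ, S.Infinite → ∃ L ∈ Lines x, (S ∩ L).Infinite := by
    intro S hS
    obtain ⟨H, hH, y, hy⟩ := hgood S hS
    obtain ⟨h, hh, hle⟩ := hP H hH
    have hy' : {n ∈ S | y⁻¹ * (σ ^ n) g ∈ H}.Infinite := hy
    have hsub : {n ∈ S | y⁻¹ * (σ ^ n) g ∈ H} ⊆ S ∩ Lset x y h := by
      rintro n ⟨hnS, hn⟩
      exact ⟨hnS, hle hn⟩
    have h1 := hy'.mono hsub
    exact ⟨Lset x y h, ⟨y, h, hh, rfl, h1.mono inter_subset_right⟩, h1⟩
  have hfin := lines_finite hx ct ha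
  obtain ⟨L, ⟨y, h, hh, rfl, hLinf⟩, -⟩ := ha univ infinite_univ
  have hmap : ∀ j : ℕ, (σ ^ j) h ≠ 1 := by
    intro j hj
    apply hh
    exact (σ ^ j).injective (by rw [hj, map_one])
  have hLj : ∀ j : ℕ, Lset x ((σ ^ j) y) ((σ ^ j) h) ∈ Lines x := by
    intro j
    refine ⟨_, _, hmap j, rfl, ?_⟩
    refine (hLinf.image (f := fun n => j + n) (fun a _ b _ hab => by simpa using hab)).mono ?_
    rintro _ ⟨n, hn, rfl⟩
    show ((σ ^ j) y)⁻¹ * (σ ^ (j + n)) g ∈ Cen ((σ ^ j) h)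
    rw [pow_add, MulAut.mul_apply, ← map_inv, ← map_mul, Cen_map]
    exact hn
  have hfin' : Finite (Lines x) := hfin.to_subtype
  obtain ⟨j, j', hjj, heq⟩ := Finite.exists_ne_map_eq_of_infinite
    (fun j : ℕ => (⟨_, hLj j⟩ : Lines x))
  wlog hlt : j < j' generalizing j j'
  · exact this j' j hjj.symm heq.symm (by omega)
  have heq' : Lset x ((σ ^ j) y) ((σ ^ j) h) = Lset x ((σ ^ j') y) ((σ ^ j') h) :=
    congrArg Subtype.val heq
  obtain ⟨-, -, -, -, hinf1⟩ := hLj j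
  obtain ⟨e1, e2⟩ := line_eq hx ct (hmap j) (hmap j') (y := (σ ^ j) y) (y' := (σ ^ j') y)
    (by rw [← heq', inter_self]; exact hinf1)
  obtain ⟨D, rfl⟩ : ∃ D, j' = j + D := ⟨j' - j, by omega⟩
  have hD : 0 < D := by omega
  have hE : ∀ z, z ∈ Cen h ↔ z ∈ Cen ((σ ^ D) h) := by
    intro z
    rw [← Cen_map (σ ^ j) h z, e1, pow_add, MulAut.mul_apply, Cen_map]
  have hy : y⁻¹ * (σ ^ D) y ∈ Cen h := by
    rw [← Cen_map (σ ^ j), map_mul, map_inv]
    rwa [pow_add, MulAut.mul_apply] at e2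
  set τ : MulAut G := σ ^ D with hτ
  have hinv : ∀ z, τ z ∈ Cen h ↔ z ∈ Cen h := by
    intro z
    rw [hE (τ z), Cen_map]
  obtain ⟨n, hn⟩ := hLinf.nonempty
  have hn' : y⁻¹ * x n ∈ Cen h := hn
  have hg' : (x n)⁻¹ * τ (x n) ∈ Cen h := by
    have e : (x n)⁻¹ * τ (x n) = (y⁻¹ * x n)⁻¹ * (y⁻¹ * τ y) * τ (y⁻¹ * x n) := by
      rw [map_mul, map_inv]; group
    rw [e]
    exact (Cen h).mul_mem ((Cen h).mul_mem ((Cen h).inv_mem hn') hy) ((hinv _).mpr hn')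
  -- move back
  set k : G := (σ ^ n)⁻¹ h with hk
  have hkh : (σ ^ n) k = h := by rw [hk, MulAut.apply_inv_self]
  have hk1 : k ≠ 1 := by
    intro h1
    apply hh
    rw [← hkh, h1, map_one]
  refine ⟨D, hD, k, hk1, fun z => ?_, ?_⟩
  · rw [← Cen_map (σ ^ n) k, ← Cen_map (σ ^ n) k z, hkh, pow_comm_apply, ← hτ]
    exact hinv _
  · rw [← Cen_map (σ ^ n) k, hkh, map_mul, map_inv, pow_comm_apply]
    exact hg'

/-! ### abelian groups -/

lemma Df_mem (σ : MulAut G) {m : ℕ} {A : Subgroup G} (hA : ∀ z, (σ ^ m) z ∈ A ↔ z ∈ A) (k : ℕ)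
    {x : G} (hx : x ∈ A) : ((Df σ m)^[k]) x ∈ A := by
  induction k generalizing x with
  | zero => exact hx
  | succ k ih =>
    rw [Function.iterate_succ_apply]
    exact ih (A.mul_mem (A.inv_mem hx) ((hA x).2 hx))

lemma Df_iter_mul (σ : MulAut G) {m : ℕ} {A : Subgroup G} (hA : ∀ z, (σ ^ m) z ∈ A ↔ z ∈ A)
    (hc : ∀ x ∈ A, ∀ y ∈ A, Commute x y) (k : ℕ) {x y : G} (hx : x ∈ A) (hy : y ∈ A) :
    ((Df σ m)^[k]) (x * y) = ((Df σ m)^[k]) x * ((Df σ m)^[k]) y := by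
  induction k generalizing x y with
  | zero => rfl
  | succ k ih =>
    rw [Function.iterate_succ_apply, Function.iterate_succ_apply, Function.iterate_succ_apply]
    have e : Df σ m (x * y) = Df σ m x * Df σ m y := by
      have h1 := hc _ (A.inv_mem hy) _ (A.mul_mem (A.inv_mem hx) ((hA x).2 hx))
      rw [Df, Df, Df, map_mul, mul_inv_rev]
      calc y⁻¹ * x⁻¹ * ((σ ^ m) x * (σ ^ m) y) = (y⁻¹ * (x⁻¹ * (σ ^ m) x)) * (σ ^ m) y := by group
        _ = ((x⁻¹ * (σ ^ m) x) * y⁻¹) * (σ ^ m) y := by rw [h1.eq]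
        _ = _ := by group
    rw [e]
    exact ih (A.mul_mem (A.inv_mem hx) ((hA x).2 hx)) (A.mul_mem (A.inv_mem hy) ((hA y).2 hy))

lemma pow_mem_iff (σ : MulAut G) {D : ℕ} {A : Subgroup G} (hA : ∀ z, (σ ^ D) z ∈ A ↔ z ∈ A)
    (q : ℕ) : ∀ z, (σ ^ (D * q)) z ∈ A ↔ z ∈ A := by
  induction q with
  | zero => intro z; simp
  | succ q ih =>
    intro z
    rw [Nat.mul_succ, pow_add, MulAut.mul_apply, ih, hA]

/-- the coset step -/
theorem tame_of_coset (σ : MulAut G) {D : ℕ} {A : Subgroup G}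
    (hA : ∀ z, (σ ^ D) z ∈ A ↔ z ∈ A) (hc : ∀ x ∈ A, ∀ y ∈ A, Commute x y) {g : G}
    (hg : g⁻¹ * (σ ^ D) g ∈ A) {q k : ℕ} (hk : ((Df σ (D * q))^[k]) (g⁻¹ * (σ ^ D) g) = 1) :
    ((Df σ (D * q))^[k + 1]) g = 1 ∧
      ∀ i j, Commute (((Df σ (D * q))^[i + 1]) g) (((Df σ (D * q))^[j + 1]) g) := by
  have hAq := pow_mem_iff σ hA q
  have hmem : ∀ j : ℕ, g⁻¹ * (σ ^ (D * j)) g ∈ A ∧
      ((Df σ (D * q))^[k]) (g⁻¹ * (σ ^ (D * j)) g) = 1 := by
    intro j
    induction j with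
    | zero =>
      refine ⟨by simp, ?_⟩
      have h1 := Df_comm σ (D * q) 0 k (g⁻¹ * (σ ^ (D * 0)) g)
      have e : g⁻¹ * (σ ^ (D * 0)) g = 1 := by simp
      rw [e]
      clear h1 e hk
      induction k with
      | zero => rfl
      | succ k ih => rw [Function.iterate_succ_apply, Df, map_one, inv_one, mul_one]; exact ih
    | succ j ih =>
      have e : g⁻¹ * (σ ^ (D * (j + 1))) g =
          (g⁻¹ * (σ ^ D) g) * (σ ^ D) (g⁻¹ * (σ ^ (D * j)) g) := by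
        rw [map_mul, map_inv, Nat.mul_succ, add_comm, pow_add, MulAut.mul_apply]
        group
      refine ⟨by rw [e]; exact A.mul_mem hg ((hA _).2 ih.1), ?_⟩
      rw [e, Df_iter_mul σ hAq hc k hg ((hA _).2 ih.1), hk, Df_comm, ih.2, map_one, mul_one]
  refine ⟨?_, fun i j => ?_⟩
  · rw [Function.iterate_succ_apply]
    exact (hmem q).2
  · rw [Function.iterate_succ_apply, Function.iterate_succ_apply]
    exact hc _ (Df_mem σ hAq i (hmem q).1) _ (Df_mem σ hAq j (hmem q).1)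

end Pool.Agent.H258.RH
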