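import Pool.Graph.R_pool_sql_team_seeded_620a6dc7.H12RS.Hil

/-! Signs for which a sum of matrices has small norm. -/

set_option autoImplicit false

open Finset Filter Topology

namespace Pool.Agent.H258.RH

open Pool.Agent.H12RS

open Classical in
lemma sign_moment {k m : ℕ} (r : ℕ) (a : Fin m → Mk k) (ha : ∀ j, ‖a j‖ ≤ 1) :
    ∑ T ∈ (univ : Finset (Fin m)).powerset, ‖∑ j : Fin m, sgn T j • a j‖ ^ (2 * 2 ^ (r + 1)) ≤
      (2 : ℝ) ^ m *
        (k * (((univ : Finset (Fin (2 * 2 ^ (r + 1)) → Fin m)).filter EvenWord).card : ℝ)) := by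
  set p := 2 ^ (r + 1) with hp
  set c : (Fin (2 * p) → Fin m) → ℝ := fun s => tau (wordProd (alt a) (2 * p) s) with hc
  have hc1 : ∀ s, |c s| ≤ k := fun s => abs_tau_word a ha _ s
  have h2 : ∀ T ∈ (univ : Finset (Fin m)).powerset, ‖∑ j : Fin m, sgn T j • a j‖ ^ (2 * p) ≤
      ∑ s : Fin (2 * p) → Fin m, (∏ i, sgn T (s i)) * c s := by
    intro T _
    refine (norm_pow_le_tau _ r).trans (le_of_eq ?_)
    exact tau_expand a (fun j => sgn T j) p
  refine (sum_le_sum h2).trans ?_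
  rw [sum_comm]
  have h3 : ∀ s : Fin (2 * p) → Fin m,
      ∑ T ∈ (univ : Finset (Fin m)).powerset, (∏ i, sgn T (s i)) * c s ≤
        if EvenWord s then (2 : ℝ) ^ m * k else 0 := by
    intro s
    rw [← sum_mul, sum_sgn_pow]
    split_ifs with hs
    · have e : ∏ j : Fin m, (1 + (-1 : ℝ) ^ ((univ.filter (fun i => s i = j)).card)) = 2 ^ m := by
        rw [prod_congr rfl (fun j _ => by rw [(hs j).neg_one_pow]), prod_const, card_univ,
          Fintype.card_fin]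
        norm_num
      rw [e]
      gcongr
      exact (le_abs_self _).trans (hc1 s)
    · have : ∃ j, ¬ Even ((univ.filter (fun i => s i = j)).card) := by
        by_contra hcon
        push Not at hcon
        exact hs hcon
      obtain ⟨j, hj⟩ := this
      rw [prod_eq_zero (mem_univ j) (by
        rw [(Nat.not_even_iff_odd.1 hj).neg_one_pow]; norm_num), zero_mul]
  refine (sum_le_sum fun s _ => h3 s).trans (le_of_eq ?_)
  rw [← sum_filter, sum_const, nsmul_eq_mul]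
  ring

/-- signs with a small sum -/
theorem exists_signs {k m : ℕ} (hm : 1 ≤ m) {h : ℝ} (hh : 1 ≤ h * m)
    (hk : (k : ℝ) ≤ Real.exp (h * m)) (a : Fin m → Mk k) (ha : ∀ j, ‖a j‖ ≤ 1) :
    ∃ T : Finset (Fin m), ‖∑ j : Fin m, sgn T j • a j‖ ≤ 8 * Real.sqrt h * m := by
  classical
  have hm0 : (0 : ℝ) < m := by exact_mod_cast hm
  have hh0 : 0 < h := by
    by_contra hcon
    push Not at hcon
    nlinarith
  obtain ⟨r, hr1, hr2⟩ := exists_nat_pow_near hh (show (1 : ℝ) < 2 by norm_num)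
  obtain ⟨p, hp⟩ : ∃ p : ℕ, p = 2 ^ (r + 1) := ⟨_, rfl⟩
  have hp1 : 1 ≤ p := by rw [hp]; exact Nat.one_le_two_pow
  have hpr : (p : ℝ) = 2 ^ (r + 1) := by rw [hp]; push_cast; rfl
  have hp0 : (0 : ℝ) < p := by exact_mod_cast hp1
  have hph : h * m ≤ p := by rw [hpr]; exact hr2.le
  have hph2 : (p : ℝ) ≤ 2 * (h * m) := by rw [hpr, pow_succ]; linarith
  have hcnt := even_count_le p m hp1 hm
  obtain ⟨e, he⟩ : ∃ e : ℝ, e = Real.exp 1 := ⟨_, rfl⟩
  have he0 : 0 < e := by rw [he]; exact Real.exp_pos _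
  have he1 : 1 ≤ e := by rw [he]; exact Real.one_le_exp (by norm_num)
  have he3 : e ≤ 2.7182818286 := by rw [he]; exact Real.exp_one_lt_d9.le
  obtain ⟨A, hA⟩ : ∃ A : ℝ, A = Real.sqrt (4 * e ^ 2 * p * m) := ⟨_, rfl⟩
  have hA0 : 0 < A := by rw [hA]; exact Real.sqrt_pos.2 (by positivity)
  have hA2 : A ^ 2 = 4 * e ^ 2 * p * m := by rw [hA]; exact Real.sq_sqrt (by positivity)
  have hA2p : A ^ (2 * p) = (4 * e ^ 2 * p * m) ^ p := by rw [pow_mul, hA2]
  have hkp : (k : ℝ) ≤ e ^ p := by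
    refine hk.trans ?_
    rw [he, ← Real.exp_nat_mul, mul_one]
    exact Real.exp_le_exp.2 hph
  have hbig : (k : ℝ) * (((univ : Finset (Fin (2 * p) → Fin m)).filter EvenWord).card : ℝ) ≤
      A ^ (2 * p) := by
    have h1 : (k : ℝ) * (((univ : Finset (Fin (2 * p) → Fin m)).filter EvenWord).card : ℝ) ≤
        e ^ p * (2 * (2 * p * e * m) ^ p) := by
      refine mul_le_mul hkp ?_ (Nat.cast_nonneg _) (by positivity)
      rw [he]; exact hcnt
    refine h1.trans ?_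
    rw [hA2p]
    have h3 : (2 : ℝ) ≤ 2 ^ p := by
      calc (2 : ℝ) = 2 ^ 1 := (pow_one _).symm
        _ ≤ 2 ^ p := pow_le_pow_right₀ (by norm_num) hp1
    calc e ^ p * (2 * (2 * p * e * m) ^ p) ≤ e ^ p * (2 ^ p * (2 * p * e * m) ^ p) := by gcongr
      _ = (4 * e ^ 2 * p * m) ^ p := by
        rw [← mul_pow, ← mul_pow]; congr 1; ring
  have hA3 : A ≤ 8 * Real.sqrt h * m := by
    rw [hA]
    apply Real.sqrt_le_iff.2
    refine ⟨by positivity, ?_⟩
    have h2 : (8 * Real.sqrt h * m) ^ 2 = 64 * h * m ^ 2 := by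
      rw [mul_pow, mul_pow, Real.sq_sqrt hh0.le]; norm_num
    rw [h2]
    have h3 : e ^ 2 ≤ 8 := by nlinarith
    calc 4 * e ^ 2 * p * m ≤ 4 * 8 * (2 * (h * m)) * m := by gcongr
      _ = 64 * h * m ^ 2 := by ring
  have hmom := sign_moment r a ha
  rw [← hp] at hmom
  have hcard : (((univ : Finset (Fin m)).powerset.card : ℕ) : ℝ) = 2 ^ m := by
    rw [card_powerset, card_univ, Fintype.card_fin]; push_cast; rfl
  obtain ⟨T, hT, hle⟩ : ∃ T ∈ (univ : Finset (Fin m)).powerset,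
      ‖∑ j : Fin m, sgn T j • a j‖ ^ (2 * p) ≤ A ^ (2 * p) := by
    refine exists_le_of_sum_le ⟨∅, by simp⟩ ?_
    rw [sum_const, nsmul_eq_mul, hcard]
    refine hmom.trans ?_
    gcongr
  exact ⟨T, ((pow_le_pow_iff_left₀ (norm_nonneg _) hA0.le (by omega)).1 hle).trans hA3⟩

end Pool.Agent.H258.RH
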