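import Pool.Graph.R_seed8.W726.NS.Abs

/-! Characters of abelian subgroups give lower bounds for norms in reduced group C*-algebras. -/

set_option autoImplicit false
set_option linter.unusedSectionVars false

open Finset Filter Topology

namespace Pool.Agent.H258.RH

open Pool.Agent.W726.NS

variable {A : Type} [CStarAlgebra A]

lemma exists_compl [Nontrivial A] (y : A) : ∃ d : A, star d * d = ((‖y‖ ^ 2 : ℝ) : ℂ) • 1 - star y * y := by
  set p : A := star y * y with hp
  have hpsa : IsSelfAdjoint p := IsSelfAdjoint.star_mul_self y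
  set g : ℝ → ℝ := fun t => Real.sqrt (max (‖y‖ ^ 2 - t) 0) with hgd
  have hgc : Continuous g := by fun_prop
  set d : A := cfc g p with hd
  have hdsa : star d = d := (cfc_predicate g p : IsSelfAdjoint _)
  refine ⟨d, ?_⟩
  have e3 : star d * d = cfc (fun t => g t * g t) p := by
    rw [hdsa, cfc_mul g g p (by fun_prop) (by fun_prop)]
  rw [e3]
  have e4 : cfc (fun t => g t * g t) p = cfc (fun t : ℝ => ‖y‖ ^ 2 - t) p := by
    refine cfc_congr fun t ht => ?_
    simp only [hgd]
    rw [Real.mul_self_sqrt (le_max_right _ _)]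
    refine max_eq_left ?_
    have h1 : ‖t‖ ≤ ‖p‖ := spectrum.norm_le_norm_of_mem ht
    rw [hp, CStarRing.norm_star_mul_self] at h1
    have h2 : t ≤ ‖t‖ := le_abs_self t
    nlinarith
  rw [e4, cfc_sub (fun _ => ‖y‖ ^ 2) (fun t => t) p (by fun_prop) (by fun_prop), cfc_id' ℝ p hpsa,
    cfc_const _ p hpsa, Algebra.algebraMap_eq_smul_one]
  congr 1

/-- the positive functional `y ↦ τ (b* y b)` has norm `τ (b* b)` -/
theorem abs_conj_le (τ : A →L[ℂ] ℂ)
    (hf : ∀ a : A, a ≠ 0 → ∃ r : ℝ, 0 < r ∧ τ (star a * a) = r) (y b : A) :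
    ‖τ (star b * y * b)‖ ≤ ‖y‖ * (τ (star b * b)).re := by
  have hpos : ∀ a : A, 0 ≤ (τ (star a * a)).re := by
    intro a
    by_cases h0 : a = 0
    · rw [h0]; simp
    · obtain ⟨r, hr, h1⟩ := hf a h0
      rw [h1, Complex.ofReal_re]
      exact hr.le
  by_cases hy : y = 0
  · rw [hy]; simp
  have hy0 : 0 < ‖y‖ := norm_pos_iff.2 hy
  have : Nontrivial A := ⟨y, 0, hy⟩
  -- second moment
  have h2 : (τ (star b * (star y * y) * b)).re ≤ ‖y‖ ^ 2 * (τ (star b * b)).re := by
    obtain ⟨d, hd⟩ := exists_compl y
    have h3 := hpos (d * b)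
    have e : star (d * b) * (d * b) = ((‖y‖ ^ 2 : ℝ) : ℂ) • (star b * b) -
        star b * (star y * y) * b := by
      rw [StarMul.star_mul]
      have : star b * star d * (d * b) = star b * (star d * d) * b := by noncomm_ring
      rw [this, hd, mul_sub, sub_mul, mul_smul_comm, mul_one, smul_mul_assoc]
    rw [e, map_sub, map_smul, Complex.sub_re, smul_eq_mul, Complex.re_ofReal_mul] at h3
    linarith
  -- the rotation
  set w : ℂ := τ (star b * y * b) with hw
  obtain ⟨ζ, hζ, hζw⟩ : ∃ ζ : ℂ, ‖ζ‖ = 1 ∧ ζ * w = ‖w‖ := by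
    by_cases hw0 : w = 0
    · exact ⟨1, by simp, by rw [hw0]; simp⟩
    · refine ⟨‖w‖ / w, ?_, by field_simp⟩
      rw [norm_div, Complex.norm_real, norm_norm, div_self (norm_ne_zero_iff.2 hw0)]
  have h4 := hpos (((‖y‖ : ℝ) : ℂ) • b - ζ • (y * b))
  have e2 : τ (star (((‖y‖ : ℝ) : ℂ) • b - ζ • (y * b)) * (((‖y‖ : ℝ) : ℂ) • b - ζ • (y * b))) =
      ((‖y‖ ^ 2 : ℝ) : ℂ) * τ (star b * b) - ((‖y‖ : ℝ) : ℂ) * (ζ * w) -
        ((‖y‖ : ℝ) : ℂ) * (star ζ * τ (star b * star y * b)) +
        τ (star b * (star y * y) * b) := by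
    have hz : star ζ * ζ = 1 := by
      rw [Complex.star_def, ← Complex.normSq_eq_conj_mul_self, Complex.normSq_eq_norm_sq, hζ]
      norm_num
    have : star (((‖y‖ : ℝ) : ℂ) • b - ζ • (y * b)) * (((‖y‖ : ℝ) : ℂ) • b - ζ • (y * b)) =
        ((‖y‖ ^ 2 : ℝ) : ℂ) • (star b * b) - (((‖y‖ : ℝ) : ℂ) * ζ) • (star b * y * b) -
        (((‖y‖ : ℝ) : ℂ) * star ζ) • (star b * star y * b) +
        (star ζ * ζ) • (star b * (star y * y) * b) := by
      rw [star_sub, star_smul, star_smul, StarMul.star_mul, sub_mul, mul_sub, mul_sub]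
      simp only [smul_mul_assoc, mul_smul_comm, smul_smul, Complex.star_def, Complex.conj_ofReal]
      have n1 : star b * (y * b) = star b * y * b := by noncomm_ring
      have n2 : star b * star y * (y * b) = star b * (star y * y) * b := by noncomm_ring
      rw [n1, n2]
      push_cast
      rw [pow_two, mul_comm ζ (‖y‖ : ℂ), mul_comm ζ ((starRingEnd ℂ) ζ)]
      abel
    rw [this, map_add, map_sub, map_sub, map_smul, map_smul, map_smul, map_smul, hz]
    simp only [smul_eq_mul, one_mul]
    rw [hw]
    ring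
  -- the adjoint
  have hconj : (star ζ * τ (star b * star y * b)).re = ‖w‖ := by
    have h5 := hpos (b + y * b)
    have himag : ∀ a : A, (τ (star a * a)).im = 0 := by
      intro a
      by_cases h0 : a = 0
      · rw [h0]; simp
      · obtain ⟨r, hr, h1⟩ := hf a h0
        rw [h1, Complex.ofReal_im]
    -- polarisation: `τ (star v * w)` is the conjugate of `τ (star w * v)`
    have hp : ∀ v v' : A, τ (star v' * v) = star (τ (star v * v')) := by
      intro v v'
      have a1 := himag (v + v')
      have a2 := himag (v + Complex.I • v')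
      have b1 := himag v
      have b2 := himag v'
      have c1 : star (v + v') * (v + v') = star v * v + star v * v' + star v' * v +
          star v' * v' := by rw [star_add]; noncomm_ring
      have c2 : star (v + Complex.I • v') * (v + Complex.I • v') = star v * v +
          Complex.I • (star v * v') - Complex.I • (star v' * v) + star v' * v' := by
        rw [star_add, star_smul, add_mul, mul_add, mul_add]
        simp only [smul_mul_assoc, mul_smul_comm, smul_smul, Complex.star_def, Complex.conj_I]
        rw [mul_neg, Complex.I_mul_I, neg_neg, one_smul, neg_smul]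
        abel
      rw [c1, map_add, map_add, map_add, Complex.add_im, Complex.add_im, Complex.add_im, b1, b2]
        at a1
      rw [c2, map_add, map_sub, map_add, map_smul, map_smul, Complex.add_im, Complex.sub_im,
        Complex.add_im, b1, b2] at a2
      simp only [smul_eq_mul, Complex.mul_im, Complex.I_re, Complex.I_im, zero_mul, one_mul,
        zero_add, add_zero] at a1 a2
      apply Complex.ext
      · rw [Complex.star_def, Complex.conj_re]; linarith
      · rw [Complex.star_def, Complex.conj_im]; linarith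
    have h6 : τ (star b * star y * b) = star w := by
      have := hp b (y * b)
      rw [StarMul.star_mul] at this
      rw [this, hw]
      congr 2
      noncomm_ring
    rw [h6, ← star_mul', hζw, Complex.star_def, Complex.conj_ofReal, Complex.ofReal_re]
  rw [e2, Complex.add_re, Complex.sub_re, Complex.sub_re, Complex.re_ofReal_mul,
    Complex.re_ofReal_mul, Complex.re_ofReal_mul, hconj, hζw, Complex.ofReal_re] at h4
  have h7 : 2 * ‖y‖ * ‖w‖ ≤ 2 * ‖y‖ * (‖y‖ * (τ (star b * b)).re) := by nlinarith
  exact le_of_mul_le_mul_left h7 (by positivity)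

end Pool.Agent.H258.RH
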