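import Pool.Agent.H258.RH.EntB

/-! Characters of abelian subgroups give lower bounds for norms in reduced group C*-algebras. -/

set_option autoImplicit false
set_option linter.unusedSectionVars false

open Finset Filter Topology

namespace Pool.Agent.H258.RH

open Pool.Agent.W726.NS

section balls

variable {M : Type} [CommGroup M] {J : ℕ}

open Classical in
/-- the products of powers with exponents at most `n` -/
noncomputable def ball (m : Fin J → M) (n : ℕ) : Finset M :=
  (Fintype.piFinset (fun _ : Fin J => Finset.range (n + 1))).image (fun ν => ∏ i, m i ^ ν i)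

lemma mem_ball {m : Fin J → M} {n : ℕ} {x : M} :
    x ∈ ball m n ↔ ∃ ν : Fin J → ℕ, (∀ i, ν i < n + 1) ∧ ∏ i, m i ^ ν i = x := by
  classical
  rw [ball, mem_image]
  constructor
  · rintro ⟨ν, hν, rfl⟩
    exact ⟨ν, fun i => Finset.mem_range.1 (Fintype.mem_piFinset.1 hν i), rfl⟩
  · rintro ⟨ν, hν, rfl⟩
    exact ⟨ν, Fintype.mem_piFinset.2 fun i => Finset.mem_range.2 (hν i), rfl⟩

lemma card_ball (m : Fin J → M) (n : ℕ) : (ball m n).card ≤ (n + 1) ^ J := by
  classical
  refine card_image_le.trans (le_of_eq ?_)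
  rw [Fintype.card_piFinset]
  simp

lemma mul_mem_ball {m : Fin J → M} {n : ℕ} {x : M} (i : Fin J) (hx : x ∈ ball m n) :
    m i * x ∈ ball m (n + 1) := by
  classical
  obtain ⟨ν, hν, rfl⟩ := mem_ball.1 hx
  refine mem_ball.2 ⟨fun l => ν l + (if l = i then 1 else 0), fun l => ?_, ?_⟩
  · have := hν l
    show ν l + (if l = i then 1 else 0) < n + 1 + 1
    split_ifs <;> omega
  · rw [prod_congr rfl (fun l _ => pow_add (m l) (ν l) _), prod_mul_distrib, mul_comm (m i)]
    congr 1
    rw [prod_eq_single i]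
    · simp
    · intro l _ hl
      simp [hl]
    · intro h
      exact absurd (mem_univ i) h

lemma ball_subset (m : Fin J → M) (n : ℕ) : ball m n ⊆ ball m (n + 1) := by
  intro x hx
  obtain ⟨ν, hν, rfl⟩ := mem_ball.1 hx
  exact mem_ball.2 ⟨ν, fun i => (hν i).trans (Nat.lt_succ_self _), rfl⟩

lemma one_mem_ball (m : Fin J → M) (n : ℕ) : (1 : M) ∈ ball m n :=
  mem_ball.2 ⟨fun _ => 0, fun _ => Nat.succ_pos _, by simp⟩

lemma exists_folner (m : Fin J → M) {ε : ℝ} (hε : 0 < ε) :
    ∃ n : ℕ, ((ball m (n + 1)).card : ℝ) ≤ (1 + ε) * (ball m n).card := by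
  by_contra hcon
  push Not at hcon
  have h1 : ∀ n : ℕ, (1 + ε) ^ n ≤ ((ball m n).card : ℝ) := by
    intro n
    induction n with
    | zero =>
      rw [pow_zero]
      have : 1 ≤ (ball m 0).card := card_pos.2 ⟨1, one_mem_ball m 0⟩
      exact_mod_cast this
    | succ n ih =>
      rw [pow_succ, mul_comm]
      exact (mul_le_mul_of_nonneg_left ih (by positivity)).trans (hcon n).le
  have h2 := tendsto_pow_const_div_const_pow_of_one_lt J (show 1 < 1 + ε by linarith)
  have h3 : ∀ᶠ n : ℕ in atTop, (n : ℝ) ^ J / (1 + ε) ^ n < 1 / (1 + ε) :=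
    h2.eventually (gt_mem_nhds (by positivity))
  obtain ⟨N, hN⟩ := eventually_atTop.1 h3
  have h4 := hN (N + 1) (Nat.le_succ N)
  rw [div_lt_div_iff₀ (by positivity) (by positivity), one_mul] at h4
  have h5 : ((ball m N).card : ℝ) ≤ ((N + 1 : ℕ) : ℝ) ^ J := by exact_mod_cast card_ball m N
  have h6 := h1 N
  rw [pow_succ] at h4
  have h7 : (0 : ℝ) < 1 + ε := by linarith
  have h8 := lt_of_mul_lt_mul_right h4 h7.le
  linarith

end balls

variable {A : Type} [CStarAlgebra A] {G : Type} [Group G] {u : G → A} {τ : A →L[ℂ] ℂ}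

open Classical in
lemma tau_ball {M : Type} [CommGroup M] (j : M →* G) (hj : Function.Injective j)
    (hu : RedAlg u τ) (hmul : ∀ g h, u (g * h) = u g * u h) (χ : M →* ℂ)
    (hχ : ∀ x, ‖χ x‖ = 1) (B : Finset M) (m : M) :
    τ (star (∑ x ∈ B, star (χ x) • u (j x)) * u (j m) * ∑ x ∈ B, star (χ x) • u (j x)) =
      χ m * ((B.filter fun x => m * x ∈ B).card : ℂ) := by
  have hχ1 : ∀ x, χ x * star (χ x) = 1 := by
    intro x
    rw [Complex.star_def, Complex.mul_conj, Complex.normSq_eq_norm_sq, hχ]
    norm_num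
  have e1 : star (∑ x ∈ B, star (χ x) • u (j x)) * u (j m) * ∑ x ∈ B, star (χ x) • u (j x) =
      ∑ x' ∈ B, ∑ x ∈ B, (χ x * star (χ x')) • (star (u (j x)) * u (j (m * x'))) := by
    rw [star_sum, sum_mul, sum_mul_sum, sum_comm]
    refine sum_congr rfl fun x' _ => sum_congr rfl fun x _ => ?_
    rw [star_smul, star_star, smul_mul_assoc, smul_mul_assoc, mul_smul_comm, smul_smul, map_mul,
      hmul, mul_assoc]
  rw [e1, map_sum]
  have e2 : ∀ x' ∈ B, τ (∑ x ∈ B, (χ x * star (χ x')) • (star (u (j x)) * u (j (m * x')))) =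
      if m * x' ∈ B then χ m else 0 := by
    intro x' _
    rw [map_sum]
    have e3 : ∀ x ∈ B, τ ((χ x * star (χ x')) • (star (u (j x)) * u (j (m * x')))) =
        if m * x' = x then χ m else 0 := by
      intro x _
      rw [map_smul, hu.tau, smul_eq_mul]
      by_cases h : m * x' = x
      · rw [if_pos (by rw [h]), if_pos h, mul_one, ← h, map_mul, mul_assoc, hχ1, mul_one]
      · rw [if_neg (fun h' => h (hj h').symm), if_neg h, mul_zero]
    rw [sum_congr rfl e3, sum_ite_eq]
  rw [sum_congr rfl e2, ← sum_filter, sum_const, nsmul_eq_mul, mul_comm]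

/-- characters of abelian subgroups are bounded -/
theorem char_bound {M : Type} [CommGroup M] (j : M →* G) (hj : Function.Injective j)
    (hu : RedAlg u τ) (hmul : ∀ g h, u (g * h) = u g * u h) (χ : M →* ℂ)
    (hχ : ∀ x, ‖χ x‖ = 1) {J : ℕ} (m : Fin J → M) (z : Fin J → ℂ) (hz : ∀ i, ‖z i‖ ≤ 1) :
    ‖∑ i, z i * χ (m i)‖ ≤ ‖∑ i, z i • u (j (m i))‖ := by
  classical
  refine le_of_forall_pos_le_add fun δ hδ => ?_
  obtain ⟨n, hn⟩ := exists_folner m (ε := δ / (J + 1)) (by positivity)
  set B := ball m n with hB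
  have hB1 : 1 ≤ B.card := card_pos.2 ⟨1, one_mem_ball m n⟩
  have hB0 : (0 : ℝ) < B.card := by exact_mod_cast hB1
  set b : A := ∑ x ∈ B, star (χ x) • u (j x) with hb
  set y : A := ∑ i, z i • u (j (m i)) with hy
  have h1 : τ (star b * b) = (B.card : ℂ) := by
    have h := tau_ball j hj hu hmul χ hχ B 1
    have hu1 : u (j 1) = 1 := by
      rw [map_one]
      have h2 := hmul 1 1
      rw [mul_one] at h2
      have h3 := congrArg (fun x => star (u 1) * x) h2
      simp only [← mul_assoc, Unitary.star_mul_self_of_mem (hu.unit 1), one_mul] at h3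
      exact h3.symm
    rw [hu1, mul_one, map_one, one_mul] at h
    rw [hb, h]
    congr 2
    exact filter_true_of_mem fun x hx => by rwa [one_mul]
  have h2 := abs_conj_le τ hu.pos y b
  rw [h1, Complex.natCast_re] at h2
  have h3 : τ (star b * y * b) = ∑ i, z i * (χ (m i) *
      ((B.filter fun x => m i * x ∈ B).card : ℂ)) := by
    have e : star b * y * b = ∑ i, z i • (star b * u (j (m i)) * b) := by
      rw [hy, Finset.mul_sum univ (fun i => z i • u (j (m i))) (star b),
        Finset.sum_mul univ (fun i => star b * z i • u (j (m i))) b]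
      refine sum_congr rfl fun i _ => ?_
      rw [mul_smul_comm, smul_mul_assoc]
    rw [e, map_sum]
    refine sum_congr rfl fun i _ => ?_
    rw [map_smul, smul_eq_mul]
    congr 1
    exact tau_ball j hj hu hmul χ hχ B (m i)
  -- the boundary
  have h4 : ∀ i, ((B.card : ℝ) - (B.filter fun x => m i * x ∈ B).card) ≤
      δ / (J + 1) * B.card := by
    intro i
    have e1 : (B.filter fun x => m i * x ∈ B).card + (B.filter fun x => ¬ m i * x ∈ B).card =
        B.card := card_filter_add_card_filter_not _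
    have e2 : (B.filter fun x => ¬ m i * x ∈ B).card + B.card ≤ (ball m (n + 1)).card := by
      have hsub : (B.filter fun x => ¬ m i * x ∈ B).image (fun x => m i * x) ∪ B ⊆
          ball m (n + 1) := by
        refine union_subset ?_ (ball_subset m n)
        intro x hx
        obtain ⟨x', hx', rfl⟩ := mem_image.1 hx
        exact mul_mem_ball i (mem_filter.1 hx').1
      have hdis : Disjoint ((B.filter fun x => ¬ m i * x ∈ B).image (fun x => m i * x)) B := by
        rw [Finset.disjoint_left]
        intro x hx hxB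
        obtain ⟨x', hx', rfl⟩ := mem_image.1 hx
        exact (mem_filter.1 hx').2 hxB
      have := card_le_card hsub
      rwa [card_union_of_disjoint hdis, card_image_of_injective _ (mul_right_injective (m i))]
        at this
    have e1' : ((B.filter fun x => m i * x ∈ B).card : ℝ) +
        (B.filter fun x => ¬ m i * x ∈ B).card = B.card := by exact_mod_cast e1
    have e2' : ((B.filter fun x => ¬ m i * x ∈ B).card : ℝ) + B.card ≤ (ball m (n + 1)).card := by
      exact_mod_cast e2
    nlinarith
  have h4' : ∀ i, 0 ≤ ((B.card : ℝ) - (B.filter fun x => m i * x ∈ B).card) := by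
    intro i
    have : (B.filter fun x => m i * x ∈ B).card ≤ B.card := card_filter_le _ _
    have : ((B.filter fun x => m i * x ∈ B).card : ℝ) ≤ B.card := by exact_mod_cast this
    linarith
  have h5 : (∑ i, z i * χ (m i)) * (B.card : ℂ) = τ (star b * y * b) + ∑ i, z i * χ (m i) *
      (((B.card : ℝ) - (B.filter fun x => m i * x ∈ B).card : ℝ) : ℂ) := by
    rw [h3, sum_mul, ← sum_add_distrib]
    refine sum_congr rfl fun i _ => ?_
    push_cast
    ring
  have h6 : ‖∑ i, z i * χ (m i) *
      (((B.card : ℝ) - (B.filter fun x => m i * x ∈ B).card : ℝ) : ℂ)‖ ≤ δ * B.card := by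
    refine (norm_sum_le _ _).trans ?_
    calc ∑ i, ‖z i * χ (m i) * (((B.card : ℝ) - (B.filter fun x => m i * x ∈ B).card : ℝ) : ℂ)‖
        ≤ ∑ _i : Fin J, δ / (J + 1) * B.card := by
          refine sum_le_sum fun i _ => ?_
          rw [norm_mul, norm_mul, hχ, mul_one, Complex.norm_real, Real.norm_eq_abs,
            abs_of_nonneg (h4' i)]
          calc ‖z i‖ * ((B.card : ℝ) - (B.filter fun x => m i * x ∈ B).card) ≤
              1 * (δ / (J + 1) * B.card) :=
                mul_le_mul (hz i) (h4 i) (h4' i) zero_le_one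
            _ = _ := one_mul _
      _ = (J / (J + 1)) * (δ * B.card) := by
          rw [sum_const, card_univ, Fintype.card_fin, nsmul_eq_mul]
          ring
      _ ≤ 1 * (δ * B.card) := by
          gcongr
          rw [div_le_one (by positivity)]
          linarith
      _ = _ := one_mul _
  have h7 : ‖∑ i, z i * χ (m i)‖ * B.card ≤ (‖y‖ + δ) * B.card := by
    have e : ‖(∑ i, z i * χ (m i)) * (B.card : ℂ)‖ = ‖∑ i, z i * χ (m i)‖ * B.card := by
      rw [norm_mul, Complex.norm_natCast]
    rw [← e, h5]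
    refine (norm_add_le _ _).trans ?_
    nlinarith
  exact le_of_mul_le_mul_right h7 hB0

end Pool.Agent.H258.RH
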