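import Mathlib

/-! A vector of a lattice with an automorphism is quasi-unipotent, or sees an eigenvalue of modulus
greater than one. -/

set_option autoImplicit false
set_option linter.unusedSectionVars false

open Polynomial TensorProduct

namespace Pool.Agent.H258.RH

/-- the annihilator of a vector -/
noncomputable def annV {K W : Type*} [CommRing K] [AddCommGroup W] [Module K W]
    (T : Module.End K W) (w : W) : Ideal K[X] where
  carrier := {Q | aeval T Q w = 0}
  add_mem' := fun {a b} ha hb => by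
    show aeval T (a + b) w = 0
    rw [map_add, LinearMap.add_apply, show aeval T a w = 0 from ha, show aeval T b w = 0 from hb,
      add_zero]
  zero_mem' := by
    show aeval T (0 : K[X]) w = 0
    rw [map_zero, LinearMap.zero_apply]
  smul_mem' := fun a b hb => by
    show aeval T (a * b) w = 0
    rw [map_mul, Module.End.mul_apply, show aeval T b w = 0 from hb, map_zero]

lemma mem_annV {K W : Type*} [CommRing K] [AddCommGroup W] [Module K W]
    {T : Module.End K W} {w : W} {Q : K[X]} : Q ∈ annV T w ↔ aeval T Q w = 0 := Iff.rfl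

/-- a conjugate outside the unit circle -/
theorem exists_big_conj {l : ℂ} (hl : IsIntegral ℤ l) (h0 : l ≠ 0) (hu : ∀ n : ℕ, 0 < n → l ^ n ≠ 1) :
    ∃ μ : ℂ, 1 < ‖μ‖ ∧ aeval μ (minpoly ℤ l) = 0 := by
  by_contra hcon
  push Not at hcon
  have hmon : (minpoly ℤ l).Monic := minpoly.monic hl
  have hne : (minpoly ℤ l).map (Int.castRingHom ℂ) ≠ 0 := (hmon.map _).ne_zero
  have hM : ((minpoly ℤ l).map (Int.castRingHom ℂ)).mahlerMeasure = 1 := by
    rw [mahlerMeasure_eq_leadingCoeff_mul_prod_roots, (hmon.map (Int.castRingHom ℂ)).leadingCoeff,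
      norm_one, one_mul]
    have : ((minpoly ℤ l).map (Int.castRingHom ℂ)).roots.map (fun a => max 1 ‖a‖) =
        ((minpoly ℤ l).map (Int.castRingHom ℂ)).roots.map (fun _ => (1 : ℝ)) := by
      refine Multiset.map_congr rfl fun a ha => ?_
      have h1 : aeval a (minpoly ℤ l) = 0 := by
        rw [mem_roots hne, IsRoot.def, eval_map] at ha
        rw [aeval_def]
        exact ha
      have h2 : ‖a‖ ≤ 1 := by
        by_contra h3
        push Not at h3
        exact hcon a h3 h1
      exact max_eq_left h2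
    rw [this]
    simp
  have hroot : l ∈ (minpoly ℤ l).aroots ℂ := by
    rw [mem_aroots]
    exact ⟨hmon.ne_zero, minpoly.aeval ℤ l⟩
  obtain ⟨n, hn, h1⟩ := pow_eq_one_of_mahlerMeasure_eq_one hM h0 hroot
  exact hu n hn h1

variable {V : Type} [AddCommGroup V] [Module.Finite ℤ V] [Module.IsTorsionFree ℤ V]

lemma one_tmul_injective {v : V} (h : (1 : ℂ) ⊗ₜ[ℤ] v = 0) : v = 0 := by
  have hinj : Function.Injective (Algebra.linearMap ℤ ℂ) := by
    intro a b hab
    simpa using hab
  have h1 := Module.Flat.rTensor_preserves_injective_linearMap (M := V) (Algebra.linearMap ℤ ℂ) hinj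
  have h2 : (LinearMap.rTensor V (Algebra.linearMap ℤ ℂ)) ((1 : ℤ) ⊗ₜ[ℤ] v) = 0 := by
    rw [LinearMap.rTensor_tmul]
    simpa using h
  have h3 : (1 : ℤ) ⊗ₜ[ℤ] v = 0 := h1 (by rw [h2, map_zero])
  have h4 := congrArg (TensorProduct.lid ℤ V) h3
  simpa using h4

lemma aeval_base (T : Module.End ℤ V) (P : ℤ[X]) (v : V) :
    aeval (LinearMap.baseChange ℂ T) (P.map (Int.castRingHom ℂ)) ((1 : ℂ) ⊗ₜ[ℤ] v) =
      (1 : ℂ) ⊗ₜ[ℤ] (aeval T P v) := by
  induction P using Polynomial.induction_on' with
  | add p q hp hq =>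
    rw [Polynomial.map_add, map_add, map_add, LinearMap.add_apply, LinearMap.add_apply, hp, hq,
      TensorProduct.tmul_add]
  | monomial n a =>
    rw [Polynomial.map_monomial, aeval_monomial, aeval_monomial]
    have h1 : ∀ (n : ℕ) (v : V), (LinearMap.baseChange ℂ T ^ n) ((1 : ℂ) ⊗ₜ[ℤ] v) =
        (1 : ℂ) ⊗ₜ[ℤ] ((T ^ n) v) := by
      intro n
      induction n with
      | zero => intro v; simp
      | succ n ih =>
        intro v
        rw [pow_succ, pow_succ, Module.End.mul_apply, Module.End.mul_apply,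
          LinearMap.baseChange_tmul, ih]
    rw [Module.End.mul_apply, Module.End.mul_apply, h1]
    simp [TensorProduct.smul_tmul']

/-- **The alternative.** -/
theorem quasi_or_big (T S : Module.End ℤ V) (hTS : T * S = 1) (c : V) :
    (∃ q : ℕ, 0 < q ∧ ∃ k : ℕ, ((T ^ q - 1) ^ k) c = 0) ∨
      ∃ μ : ℂ, 1 < ‖μ‖ ∧ ∀ P : ℤ[X], aeval T P c = 0 → aeval μ P = 0 := by
  classical
  have hfree : Module.Free ℤ V := Module.free_of_finite_type_torsion_free'
  set TC : Module.End ℂ (ℂ ⊗[ℤ] V) := LinearMap.baseChange ℂ T with hTC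
  set cC : ℂ ⊗[ℤ] V := (1 : ℂ) ⊗ₜ[ℤ] c with hcC
  obtain ⟨f, hf⟩ := (IsPrincipalIdealRing.principal (annV TC cC)).principal
  have hf' : ∀ Q : ℂ[X], aeval TC Q cC = 0 ↔ f ∣ Q := by
    intro Q
    rw [← mem_annV, hf, ← Ideal.mem_span_singleton]
  -- an integral polynomial
  have hchar : aeval T T.charpoly c = 0 := by rw [LinearMap.aeval_self_charpoly]; rfl
  have hcommon : ∀ l : ℂ, f.IsRoot l → ∀ P : ℤ[X], aeval T P c = 0 → aeval l P = 0 := by
    intro l hl P hP
    have h1 : f ∣ P.map (Int.castRingHom ℂ) := by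
      rw [← hf', hTC, hcC, aeval_base, hP, TensorProduct.tmul_zero]
    have h2 := hl.dvd h1
    rw [IsRoot.def, eval_map] at h2
    rw [aeval_def]
    exact h2
  have hf0 : f ≠ 0 := by
    rintro rfl
    have h1 : (0 : ℂ[X]) ∣ T.charpoly.map (Int.castRingHom ℂ) := by
      rw [← hf', hTC, hcC, aeval_base, hchar, TensorProduct.tmul_zero]
    exact ((LinearMap.charpoly_monic T).map _).ne_zero (zero_dvd_iff.1 h1)
  by_cases hall : ∀ l ∈ f.roots, ∃ n : ℕ, 0 < n ∧ l ^ n = 1
  · left
    choose! n hn hln using hall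
    set q : ℕ := ∏ l ∈ f.roots.toFinset, n l with hq
    have hq0 : 0 < q := Finset.prod_pos fun l hl => hn l (Multiset.mem_toFinset.1 hl)
    have hlq : ∀ l ∈ f.roots, l ^ q = 1 := by
      intro l hl
      obtain ⟨d, hd⟩ := Finset.dvd_prod_of_mem n (Multiset.mem_toFinset.2 hl)
      rw [hq, hd, pow_mul, hln l hl, one_pow]
    have hdvd : f ∣ (X ^ q - 1) ^ f.roots.card := by
      have hs : f.Splits := IsAlgClosed.splits f
      have e := hs.eq_prod_roots
      have h1 : (f.roots.map fun a => X - C a).prod ∣ (f.roots.map fun _ => (X ^ q - 1 : ℂ[X])).prod := by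
        refine Multiset.prod_dvd_prod_of_dvd _ _ fun a ha => ?_
        rw [dvd_iff_isRoot, IsRoot.def]
        simp [hlq a ha]
      rw [Multiset.map_const', Multiset.prod_replicate] at h1
      rw [e]
      have hu : IsUnit (C f.leadingCoeff) := isUnit_C.2 (isUnit_iff_ne_zero.2 (leadingCoeff_ne_zero.2 hf0))
      rw [hu.mul_left_dvd]
      convert h1 using 2
      rw [← e]
    refine ⟨q, hq0, f.roots.card, ?_⟩
    have h2 := (hf' _).2 hdvd
    have h3 : ((X ^ q - 1) ^ f.roots.card : ℂ[X]) =
        (((X ^ q - 1) ^ f.roots.card : ℤ[X])).map (Int.castRingHom ℂ) := by simp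
    rw [h3, hTC, hcC, aeval_base] at h2
    have h4 := one_tmul_injective h2
    simpa using h4
  · right
    push Not at hall
    obtain ⟨l, hl, hlu⟩ := hall
    have hroot : f.IsRoot l := (mem_roots hf0).1 hl
    have hcm := hcommon l hroot
    have hint : IsIntegral ℤ l := by
      refine ⟨T.charpoly, LinearMap.charpoly_monic T, ?_⟩
      have := hcm _ hchar
      rwa [aeval_def] at this
    have hl0 : l ≠ 0 := by
      rintro rfl
      have h1 := hcm _ hchar
      have h2 : (T.charpoly.coeff 0 : ℂ) = 0 := by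
        rw [aeval_def, eval₂_at_zero] at h1
        simpa using h1
      have h3 : T.charpoly.coeff 0 = 0 := by exact_mod_cast h2
      have h4 := LinearMap.det_eq_sign_charpoly_coeff T
      rw [h3, mul_zero] at h4
      have h5 : LinearMap.det T * LinearMap.det S = 1 := by
        rw [← map_mul, hTS, map_one]
      rw [h4, zero_mul] at h5
      exact zero_ne_one h5
    obtain ⟨μ, hμ, hμ'⟩ := exists_big_conj hint hl0 fun n hn => hlu n hn
    refine ⟨μ, hμ, fun P hP => ?_⟩
    obtain ⟨R, hR⟩ := minpoly.isIntegrallyClosed_dvd hint (hcm P hP)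
    rw [hR, map_mul, hμ', zero_mul]

end Pool.Agent.H258.RH
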