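import Pool.Agent.H258.RH.EntC
import Pool.Agent.H258.RH.EntD
import Pool.Graph.R_seed8.Helper188.NCM.CStar

/-! Prescribed values of a character along a lacunary orbit. -/

set_option autoImplicit false
set_option linter.unusedSectionVars false

open Polynomial

namespace Pool.Agent.H258.RH

open Pool.Agent.Helper188.NCM

/-- greedy choice -/
theorem exists_t (w : ℂ) (hw : 26 ≤ ‖w‖) (θ : ℕ → ℝ) (J : ℕ) :
    ∃ t : ℂ, ∀ j < J, ∃ n : ℤ,
      |(t * w ^ j).re - θ j - n| ≤ (1 - (‖w‖⁻¹) ^ (J - 1 - j)) / 50 := by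
  have hw0 : w ≠ 0 := by
    rintro rfl
    rw [norm_zero] at hw
    linarith
  have hL : 0 < ‖w‖ := norm_pos_iff.2 hw0
  induction J with
  | zero => exact ⟨0, fun j hj => absurd hj (Nat.not_lt_zero j)⟩
  | succ J ih =>
    obtain ⟨t, ht⟩ := ih
    set r : ℝ := (t * w ^ J).re - θ J with hr
    set δ : ℝ := r - round r with hδ
    have hδ1 : |δ| ≤ 1 / 2 := abs_sub_round r
    set s : ℂ := -(δ : ℂ) / w ^ J with hs
    have hsJ : s * w ^ J = -(δ : ℂ) := by rw [hs]; field_simp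
    refine ⟨t + s, fun j hj => ?_⟩
    rcases Nat.lt_succ_iff_lt_or_eq.1 hj with hj' | rfl
    · obtain ⟨n, hn⟩ := ht j hj'
      refine ⟨n, ?_⟩
      have e1 : ((t + s) * w ^ j).re - θ j - n = ((t * w ^ j).re - θ j - n) + (s * w ^ j).re := by
        rw [add_mul, Complex.add_re]; ring
      obtain ⟨i, hi⟩ : ∃ i, J - 1 - j = i := ⟨_, rfl⟩
      have hJ : J = j + (i + 1) := by omega
      have e2 : ‖s * w ^ j‖ = |δ| * (‖w‖⁻¹) ^ (i + 1) := by
        have : s * w ^ j = -(δ : ℂ) / w ^ (i + 1) := by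
          rw [hs, hJ, pow_add]; field_simp
        rw [this, norm_div, norm_neg, Complex.norm_real, Real.norm_eq_abs, norm_pow, inv_pow]
        rfl
      have h1 : |(s * w ^ j).re| ≤ 1 / 2 * (‖w‖⁻¹) ^ (i + 1) := by
        refine (Complex.abs_re_le_norm _).trans ?_
        rw [e2]
        gcongr
      rw [e1]
      refine (abs_add_le _ _).trans ?_
      rw [hi] at hn
      have e3 : J + 1 - 1 - j = i + 1 := by omega
      rw [e3]
      set x : ℝ := (‖w‖⁻¹) ^ i with hx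
      have hx0 : 0 < x := by positivity
      have e4 : (‖w‖⁻¹) ^ (i + 1) = x * ‖w‖⁻¹ := by rw [pow_succ]
      rw [e4] at h1 ⊢
      have h2 : ‖w‖⁻¹ ≤ 1 / 26 := by
        rw [one_div]
        exact inv_anti₀ (by norm_num) hw
      have h3 : x * ‖w‖⁻¹ ≤ x * (1 / 26) := by gcongr
      linarith
    · refine ⟨round r, ?_⟩
      have e1 : ((t + s) * w ^ j).re - θ j - round r = 0 := by
        rw [add_mul, Complex.add_re, hsJ, Complex.neg_re, Complex.ofReal_re]
        linarith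
      rw [e1, abs_zero]
      have e3 : j + 1 - 1 - j = 0 := by omega
      rw [e3]
      simp

theorem ee_re (x : ℝ) : (ee x).re = Real.cos (2 * Real.pi * x) := by
  rw [ee]
  have : (2 : ℂ) * Real.pi * Complex.I * x = ((2 * Real.pi * x : ℝ) : ℂ) * Complex.I := by
    push_cast; ring
  rw [this, Complex.exp_ofReal_mul_I_re]

theorem half_le_ee_re {x : ℝ} (hx : |x| ≤ 1 / 50) : 1 / 2 ≤ (ee x).re := by
  rw [ee_re]
  have h1 := Real.one_sub_sq_div_two_le_cos (x := 2 * Real.pi * x)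
  have h2 : (2 * Real.pi * x) ^ 2 ≤ 1 := by
    have hpi : Real.pi ≤ 4 := Real.pi_le_four
    have h3 : |2 * Real.pi * x| ≤ 1 := by
      rw [abs_mul, abs_of_pos (by positivity : (0 : ℝ) < 2 * Real.pi)]
      nlinarith [Real.pi_pos, abs_nonneg x]
    rw [← sq_abs]
    nlinarith [abs_nonneg (2 * Real.pi * x)]
  linarith

theorem ee_int_add (n : ℤ) (x : ℝ) : ee (x + n) = ee x := by
  rw [ee, ee]
  have : (2 : ℂ) * Real.pi * Complex.I * ((x + n : ℝ) : ℂ) =
      2 * Real.pi * Complex.I * x + n * (2 * Real.pi * Complex.I) := by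
    push_cast; ring
  rw [this, Complex.exp_add, Complex.exp_int_mul_two_pi_mul_I, mul_one]

/-- the additive functional on the orbit module -/
theorem exists_functional {V : Type} [AddCommGroup V] (T : Module.End ℤ V) (c : V) (μ : ℂ)
    (h : ∀ P : ℤ[X], aeval T P c = 0 → aeval μ P = 0) :
    ∃ (R : Submodule ℤ V) (ℓ : R →+ ℂ), ∀ P : ℤ[X], ∃ hP : aeval T P c ∈ R,
      ℓ ⟨aeval T P c, hP⟩ = aeval μ P := by
  let φ : ℤ[X] →ₗ[ℤ] V := (LinearMap.applyₗ c).comp (aeval T).toLinearMap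
  have hφ : ∀ P, φ P = aeval T P c := fun P => rfl
  let ψ : ℤ[X] →ₗ[ℤ] ℂ := (aeval μ).toLinearMap
  have hker : LinearMap.ker φ ≤ LinearMap.ker ψ := by
    intro P hP
    exact h P hP
  let ℓ : LinearMap.range φ →ₗ[ℤ] ℂ :=
    (Submodule.liftQ (LinearMap.ker φ) ψ hker).comp (φ.quotKerEquivRange.symm : LinearMap.range φ →ₗ[ℤ] _)
  refine ⟨LinearMap.range φ, ℓ.toAddMonoidHom, fun P => ⟨LinearMap.mem_range_self φ P, ?_⟩⟩
  have h1 := LinearMap.quotKerEquivRange_symm_apply_image φ P (LinearMap.mem_range_self φ P)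
  have h2 := congrArg (Submodule.liftQ (LinearMap.ker φ) ψ hker) h1
  exact h2.trans rfl

end Pool.Agent.H258.RH
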