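import Pool.Agent.H258.RH.Dich
import Pool.Graph.R_seed8.W726.NS.Reg

/-! Convergence groups with abelian point stabilisers. -/

set_option autoImplicit false
set_option linter.unusedSectionVars false

open Finset Filter Topology

namespace Pool.Agent.H258.RH

open Pool.Agent.Helper188.NCM Pool.Agent.TH261.AB
open Pool.Agent.H258.PA (UD MS)

variable {U : Type} [CStarAlgebra U]

/-- orthogonality to the weights `w`, strongly in all representations -/
def SW (w : ℕ → ℂ) (β : U →⋆ₐ[ℂ] U) (x : U) : Prop :=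
  ∀ (K : Type) [NormedAddCommGroup K] [InnerProductSpace ℂ K] [CompleteSpace K]
    (π : U →⋆ₐ[ℂ] (K →L[ℂ] K)) (ξ : K),
    Tendsto (vav fun n => w n • π ((β^[n]) x) ξ) atTop (𝓝 0)

theorem SW.zero (w : ℕ → ℂ) (β : U →⋆ₐ[ℂ] U) : SW w β 0 := by
  intro K _ _ _ π ξ
  have : (vav fun n => w n • π ((β^[n]) (0 : U)) ξ) = fun _ => 0 := by
    funext N
    have h0 : ∀ n, (β^[n]) (0 : U) = 0 := fun n => by
      have := iter_smul β n 0 0
      rwa [zero_smul, zero_smul] at this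
    simp [vav, h0]
  rw [this]
  exact tendsto_const_nhds

theorem SW.add {w : ℕ → ℂ} {β : U →⋆ₐ[ℂ] U} {x y : U} (hx : SW w β x) (hy : SW w β y) :
    SW w β (x + y) := by
  intro K _ _ _ π ξ
  have h := (hx K π ξ).add (hy K π ξ)
  rw [add_zero] at h
  refine h.congr fun N => ?_
  rw [vav, vav, vav, ← smul_add, ← Finset.sum_add_distrib]
  congr 1
  refine Finset.sum_congr rfl fun n _ => ?_
  rw [TH261.AB.iter_add, map_add, add_apply, smul_add]

theorem SW.smul {w : ℕ → ℂ} {β : U →⋆ₐ[ℂ] U} (c : ℂ) {x : U} (hx : SW w β x) :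
    SW w β (c • x) := by
  intro K _ _ _ π ξ
  have h := (hx K π ξ).const_smul c
  rw [smul_zero] at h
  refine h.congr fun N => ?_
  rw [vav, vav, smul_comm, Finset.smul_sum]
  congr 1
  refine Finset.sum_congr rfl fun n _ => ?_
  rw [iter_smul, map_smul, smul_apply, smul_comm]

theorem sw_le {w : ℕ → ℂ} (hw : ∀ n, ‖w n‖ ≤ 1) (β : U →⋆ₐ[ℂ] U) (x : U) {K : Type}
    [NormedAddCommGroup K] [InnerProductSpace ℂ K]
    [CompleteSpace K] (π : U →⋆ₐ[ℂ] (K →L[ℂ] K)) (ξ : K) (n : ℕ) :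
    ‖w n • π ((β^[n]) x) ξ‖ ≤ ‖x‖ * ‖ξ‖ := by
  rw [norm_smul]
  calc _ ≤ 1 * (‖x‖ * ‖ξ‖) := by
        gcongr
        · exact hw _
        · refine (ContinuousLinearMap.le_opNorm _ _).trans ?_
          gcongr
          exact (NonUnitalStarAlgHom.norm_apply_le π _).trans (TH261.AB.iter_norm β n x)
    _ = _ := one_mul _

theorem SW.closed {w : ℕ → ℂ} (hw : ∀ n, ‖w n‖ ≤ 1) {β : U →⋆ₐ[ℂ] U} {S : Set U}
    (hS : ∀ x ∈ S, SW w β x) : ∀ x ∈ closure S, SW w β x := by
  intro x hx K _ _ _ π ξ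
  rw [Metric.tendsto_atTop]
  intro ε hε
  have hc : 0 < ‖ξ‖ + 1 := by positivity
  obtain ⟨y, hy, hd⟩ := Metric.mem_closure_iff.1 hx (ε / 2 / (‖ξ‖ + 1)) (by positivity)
  obtain ⟨N0, hN0⟩ := Metric.tendsto_atTop.1 (hS y hy K π ξ) (ε / 2) (by positivity)
  refine ⟨N0, fun N hN => ?_⟩
  have h2 := hN0 N hN
  rw [dist_zero_right] at h2 ⊢
  have e : vav (fun n => w n • π ((β^[n]) x) ξ) N = vav (fun n => w n • π ((β^[n]) (x - y)) ξ) N +
      vav (fun n => w n • π ((β^[n]) y) ξ) N := by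
    rw [vav, vav, vav, ← smul_add, ← Finset.sum_add_distrib]
    congr 1
    refine Finset.sum_congr rfl fun n _ => ?_
    rw [TH261.AB.iter_sub, map_sub, sub_apply, ← smul_add, sub_add_cancel]
  rw [e]
  have h3 := vav_le (by positivity) (sw_le hw β (x - y) π ξ) N
  rw [dist_eq_norm] at hd
  have h4 : ‖x - y‖ * ‖ξ‖ ≤ ε / 2 := by
    calc ‖x - y‖ * ‖ξ‖ ≤ (ε / 2 / (‖ξ‖ + 1)) * (‖ξ‖ + 1) := by gcongr; linarith
      _ = ε / 2 := by field_simp
  have h5 := norm_add_le (vav (fun n => w n • π ((β^[n]) (x - y)) ξ) N)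
    (vav (fun n => w n • π ((β^[n]) y) ξ) N)
  linarith

/-- the span version -/
theorem SW.of_span {w : ℕ → ℂ} (hw : ∀ n, ‖w n‖ ≤ 1) {β : U →⋆ₐ[ℂ] U} {S : Set U}
    (hS : ∀ x ∈ S, SW w β x) :
    ∀ x ∈ (Submodule.span ℂ S).topologicalClosure, SW w β x := by
  intro x hx
  refine SW.closed hw (S := (Submodule.span ℂ S : Set U)) (fun y hy => ?_) x hx
  induction hy using Submodule.span_induction with
  | mem x hx => exact hS x hx
  | zero => exact SW.zero w β
  | add x y _ _ hx hy => exact hx.add hy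
  | smul c x _ hx => exact hx.smul c

/-- the weights -/
noncomputable def wt (τ : ℝ) (n : ℕ) : ℂ := mob n * ee ((n : ℝ) * τ)

theorem wt_le (τ : ℝ) (n : ℕ) : ‖wt τ n‖ ≤ 1 := by
  rw [wt, norm_mul, norm_ee, mul_one]
  exact norm_mob_le n

theorem sd_iff {α : U →⋆ₐ[ℂ] U} {x : U} : SD α x ↔ ∀ τ, SW (wt τ) α x := by
  constructor
  · intro h τ K _ _ _ π ξ
    refine (h τ K π ξ).congr fun N => ?_
    rw [vav, vav]
    congr 1
    refine Finset.sum_congr rfl fun n _ => ?_
    rw [smul_smul, wt]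
  · intro h τ K _ _ _ π ξ
    refine (h τ K π ξ).congr fun N => ?_
    rw [vav, vav]
    congr 1
    refine Finset.sum_congr rfl fun n _ => ?_
    rw [smul_smul, wt]

theorem SD.of_span {β : U →⋆ₐ[ℂ] U} {S : Set U} (hS : ∀ x ∈ S, SD β x) :
    ∀ x ∈ (Submodule.span ℂ S).topologicalClosure, SD β x := by
  intro x hx
  rw [sd_iff]
  intro τ
  exact SW.of_span (wt_le τ) (fun y hy => sd_iff.1 (hS y hy) τ) x hx

theorem ee_nmul (n : ℕ) (τ : ℝ) : ee ((n : ℝ) * τ) = ee τ ^ n := by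
  induction n with
  | zero => simp [ee_zero]
  | succ n ih =>
    rw [pow_succ, ← ih, ← ee_add]
    congr 1
    push_cast
    ring

theorem SD.of_UD {α : U →⋆ₐ[ℂ] U} {x : U} (h : UD α x) : SD α x := by
  intro τ K _ _ _ π ξ
  rw [Metric.tendsto_atTop]
  intro ε hε
  obtain ⟨N0, h0⟩ := h (ε / 2 / (‖ξ‖ + 1)) (by positivity)
  refine ⟨N0, fun N hN => ?_⟩
  rw [dist_zero_right, vav_norm]
  have h1 := h0 N hN (ee τ) (norm_ee τ)
  have e : ∑ n ∈ range N, mob n • (ee ((n : ℝ) * τ) • π ((α^[n]) x) ξ) = π (MS α x N (ee τ)) ξ := by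
    rw [MS, map_sum, ContinuousLinearMap.sum_apply]
    refine Finset.sum_congr rfl fun n _ => ?_
    rw [map_smul π, smul_apply, smul_smul, ee_nmul]
  rw [e]
  have h2 : ‖π (MS α x N (ee τ)) ξ‖ ≤ ε / 2 / (‖ξ‖ + 1) * N * ‖ξ‖ := by
    refine (ContinuousLinearMap.le_opNorm _ _).trans ?_
    gcongr
    exact (NonUnitalStarAlgHom.norm_apply_le π _).trans h1
  rcases Nat.eq_zero_or_pos N with hN0 | hN0
  · subst hN0
    simp only [Nat.cast_zero, div_zero]
    exact hε
  have hN1 : (0 : ℝ) < N := by exact_mod_cast hN0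
  have h3 : ε / 2 / (‖ξ‖ + 1) * N * ‖ξ‖ ≤ ε / 2 * N := by
    have : ‖ξ‖ / (‖ξ‖ + 1) ≤ 1 := by
      rw [div_le_one (by positivity)]
      linarith
    calc ε / 2 / (‖ξ‖ + 1) * N * ‖ξ‖ = ε / 2 * N * (‖ξ‖ / (‖ξ‖ + 1)) := by ring
      _ ≤ ε / 2 * N * 1 := by gcongr
      _ = _ := mul_one _
  rw [div_lt_iff₀ hN1]
  nlinarith

/-- extension by eigenvectors -/
theorem SD.ext {α : U →⋆ₐ[ℂ] U} {x : U} (hx : SD α x) {B : Type} [CStarAlgebra B]
    (β : B →⋆ₐ[ℂ] B) (ι : U →⋆ₐ[ℂ] B) (hι : ∀ a, β (ι a) = ι (α a)) {v w : B}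
    (hv : ∃ l : ℂ, ‖l‖ = 1 ∧ β v = l • v) (hw : ∃ l : ℂ, ‖l‖ = 1 ∧ β w = l • w) :
    SD β (v * ι x * w) := by
  obtain ⟨l, hl, hv⟩ := hv
  obtain ⟨l', hl', hw⟩ := hw
  obtain ⟨θ, rfl⟩ := exists_ee hl
  obtain ⟨θ', rfl⟩ := exists_ee hl'
  intro τ K _ _ _ π ξ
  have hn : ∀ (n : ℕ) (a : U), (β^[n]) (ι a) = ι ((α^[n]) a) := by
    intro n
    induction n with
    | zero => intro a; rfl
    | succ n ih => intro a; rw [Function.iterate_succ_apply, Function.iterate_succ_apply, hι, ih]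
  have h1 := hx (τ + θ + θ') K (π.comp ι) (π w ξ)
  have h2 := ((π v).continuous.tendsto 0).comp h1
  rw [map_zero] at h2
  refine h2.congr fun N => ?_
  rw [Function.comp, vav, vav, map_smul, map_sum]
  congr 1
  refine Finset.sum_congr rfl fun n _ => ?_
  rw [TH261.AB.iter_mul, TH261.AB.iter_mul, TH261.AB.eig_iter hv, TH261.AB.eig_iter hw, hn, map_smul]
  congr 1
  have e : ee ((n : ℝ) * θ) • v * ι ((α^[n]) x) * ee ((n : ℝ) * θ') • w =
      (ee ((n : ℝ) * θ) * ee ((n : ℝ) * θ')) • (v * ι ((α^[n]) x) * w) := by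
    rw [smul_mul_assoc, smul_mul_assoc, mul_smul_comm, smul_smul]
  rw [e, map_smul π, smul_apply, map_smul, map_mul, map_mul, mul_apply_eq_comp,
    mul_apply_eq_comp, smul_smul, ← ee_add, ← ee_add]
  congr 2
  ring

/-! ### groups -/

section groups

variable {G : Type} [Group G]

/-- commutation is transitive in a torsion-free convergence group with abelian stabilisers -/
theorem ct_of_torsionFree {X : Type} [TopologicalSpace X] [CompactSpace X] [T2Space X]
    [Infinite X] [MulAction G X] (hG : W726.NS.ConvergenceAction G X)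
    (hab : ∀ p : X, ∀ a ∈ MulAction.stabilizer G p, ∀ b ∈ MulAction.stabilizer G p, Commute a b)
    (htf : ∀ g : G, g ≠ 1 → ¬ IsOfFinOrder g) : CT G := by
  intro h hh x y hx hy
  obtain ⟨a, ha⟩ := W726.NS.Ep_le_stabilizer hG h (htf h hh)
  refine hab a x (ha ?_) y (ha ?_)
  · exact W726.NS.mem_Ep.2 ⟨1, one_pos, by rw [pow_one]; exact hx⟩
  · exact W726.NS.mem_Ep.2 ⟨1, one_pos, by rw [pow_one]; exact hy⟩

/-- quasi-unipotence on the periodic maximal abelian subgroups -/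
def QUA (σ : MulAut G) : Prop :=
  ∀ (h : G) (D : ℕ), h ≠ 1 → 0 < D → (∀ z, (σ ^ D) z ∈ Cen h ↔ z ∈ Cen h) →
    ∀ c ∈ Cen h, ∃ q : ℕ, 0 < q ∧ ∃ k : ℕ, ((Df σ (D * q))^[k]) c = 1

theorem sd_group [Countable G] {X : Type} [TopologicalSpace X] [CompactSpace X] [T2Space X]
    [Infinite X] [MulAction G X] {u : G → U} {τ : U →L[ℂ] ℂ} (hu : W726.NS.RedAlg u τ)
    (hG : W726.NS.ConvergenceAction G X)
    (hab : ∀ p : X, ∀ a ∈ MulAction.stabilizer G p, ∀ b ∈ MulAction.stabilizer G p, Commute a b)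
    (ct : CT G) (σ : MulAut G) (hσ : QUA σ) (α : U →⋆ₐ[ℂ] U)
    (hα : ∀ g, ∃ c : ℂ, ‖c‖ = 1 ∧ α (u g) = c • u (σ g)) (g : G) : SD α (u g) := by
  classical
  have hT : TwG u := ⟨hu.unit, hu.mul⟩
  have hit := cov_iter hα
  by_cases hinj : Function.Injective (fun n : ℕ => (σ ^ n) g)
  · have hP : ∀ H ∈ Set.range (fun p : X => MulAction.stabilizer G p),
        ∃ h : G, h ≠ 1 ∧ H ≤ Cen h := by
      rintro _ ⟨p, rfl⟩
      by_cases hp : ∃ h ∈ MulAction.stabilizer G p, h ≠ 1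
      · obtain ⟨h, hh, hne⟩ := hp
        exact ⟨h, hne, fun x hx => mem_Cen.2 (hab p x hx h hh)⟩
      · push Not at hp
        obtain ⟨h, hh⟩ : ∃ h : G, h ≠ 1 := by
          by_contra hcon
          push Not at hcon
          have h1 : (fun n : ℕ => (σ ^ n) g) 0 = (fun n : ℕ => (σ ^ n) g) 1 := by
            simp only
            rw [hcon ((σ ^ 0) g), hcon ((σ ^ 1) g)]
          exact absurd (hinj h1) (by norm_num)
        refine ⟨h, hh, fun x hx => ?_⟩
        rw [hp x hx]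
        exact (Cen h).one_mem
    rcases dichotomy ct (Set.range (fun p : X => MulAction.stabilizer G p)) hP σ g hinj with
      ⟨S, hS, hSf⟩ | ⟨D, hD, h, hh, hinv, hg⟩
    · refine SD.of_UD (UD.of_blocks α (u g) (norm_unitary_le (hu.unit g)) fun M => ?_)
      have hSi : Infinite S := hS.to_subtype
      let e : ℕ ↪o ℕ := Nat.orderEmbeddingOfSet S
      have heS : ∀ n, e n ∈ S := fun n => by
        have : e n ∈ Set.range (Nat.orderEmbeddingOfSet S) := ⟨n, rfl⟩
        rwa [Nat.orderEmbeddingOfSet_range] at this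
      obtain ⟨o⟩ : Nonempty X := inferInstance
      obtain ⟨n, -, hn⟩ := W726.NS.sparse_norm hG o (fun k => (σ ^ (e k)) g)
        (fun a b hab => e.injective (hinj hab)) (by
          intro p q
          by_cases hne : ∃ k0, ((σ ^ (e k0)) g) • p = q
          · obtain ⟨k0, hk0⟩ := hne
            have h1 := hSf _ ⟨p, rfl⟩ ((σ ^ (e k0)) g)
            refine (h1.preimage (f := e) e.injective.injOn).subset ?_
            intro k hk
            refine ⟨heS k, ?_⟩
            have hk' : ((σ ^ (e k)) g) • p = q := hk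
            rw [MulAction.mem_stabilizer_iff, mul_smul, hk', ← hk0, inv_smul_smul]
          · convert Set.finite_empty (α := ℕ)
            ext k
            simp only [Set.mem_ofPred_eq, Set.mem_empty_iff_false, iff_false]
            exact fun h => hne ⟨k, h⟩) M
      refine ⟨fun k => e (n k), fun c hc => ?_⟩
      choose c' hc' hc'' using fun k : Fin M => hit (e (n k)) g
      have h3 : ∀ k, ‖c k * c' k‖ ≤ 1 := fun k => by
        rw [norm_mul, hc' k, mul_one]; exact hc k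
      have h2 := hn (fun k => ((‖c k * c' k‖ : ℝ) : ℂ)) (fun k => by
        rw [Complex.norm_real, norm_norm]; exact h3 k)
      have h4 := hu.norm_sum_le (fun k => (σ ^ (e (n k))) g) (fun k => c k * c' k)
        (by positivity) h2
      refine le_trans (le_of_eq ?_) h4
      congr 1
      refine Finset.sum_congr rfl fun k _ => ?_
      rw [hc'' k, smul_smul]
    · obtain ⟨q, hq, k, hk⟩ := hσ h D hh hD hinv _ hg
      obtain ⟨h1, h2⟩ := tame_of_coset σ hinv
        (fun x hx y hy => ct h hh x y (mem_Cen.1 hx) (mem_Cen.1 hy)) hg hk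
      exact SD.of_tame hT hα g (Nat.mul_pos hD hq) k h1 h2
  · obtain ⟨i, j, hij, hne⟩ : ∃ i j : ℕ, (σ ^ i) g = (σ ^ j) g ∧ i ≠ j := by
      simpa [Function.Injective] using hinj
    wlog hlt : i < j generalizing i j
    · exact this j i hij.symm hne.symm (by omega)
    obtain ⟨m, rfl⟩ : ∃ m, j = i + m := ⟨j - i, by omega⟩
    have h1 : (σ ^ m) g = g := by
      rw [pow_add, MulAut.mul_apply] at hij
      exact ((σ ^ i).injective hij).symm
    have h2 : Df σ m g = 1 := by rw [Df, h1, inv_mul_cancel]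
    have h3 : ∀ i : ℕ, ((Df σ m)^[i + 1]) g = 1 := by
      intro i
      rw [Function.iterate_succ_apply, h2]
      induction i with
      | zero => rfl
      | succ i ih => rw [Function.iterate_succ_apply, Df, map_one, inv_one, mul_one]; exact ih
    exact SD.of_tame hT hα g (by omega) 0 (h3 0) fun i j => by
      rw [h3, h3]

end groups

end Pool.Agent.H258.RH
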