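import Pool.Agent.H258.RH.EntA
import Pool.Agent.H258.RH.EntE
import Pool.Agent.H258.RH.Main

/-! Zero entropy implies quasi-unipotence on finitely generated abelian subgroups. -/

set_option autoImplicit false
set_option linter.unusedSectionVars false

open Filter Topology Polynomial

namespace Pool.Agent.H258.RH

open Pool.Agent.Helper188.NCM Pool.Agent.H12RS

section lattice

variable {G : Type} [Group G]

theorem lattice_alt (σ : MulAut G) {D : ℕ} {A : Subgroup G}
    (hA : ∀ z, (σ ^ D) z ∈ A ↔ z ∈ A) (hc : ∀ x ∈ A, ∀ y ∈ A, Commute x y) (hfg : A.FG)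
    (htf : ∀ x ∈ A, x ≠ 1 → ¬ IsOfFinOrder x) {c : G} (hcA : c ∈ A) :
    (∃ q : ℕ, 0 < q ∧ ∃ k : ℕ, ((Df σ (D * q))^[k]) c = 1) ∨
      ∃ μ : ℂ, 1 < ‖μ‖ ∧ ∃ (M : Type) (_ : CommGroup M) (j : M →* G) (ℓ : M →* Multiplicative ℂ)
        (m : ℕ → M), Function.Injective j ∧
          ∀ i, j (m i) = (σ ^ (D * i)) c ∧ ℓ (m i) = Multiplicative.ofAdd (μ ^ i) := by
  letI iA : CommGroup A := { (inferInstance : Group A) with
    mul_comm := fun a b => Subtype.ext (hc a a.2 b b.2) }
  have hFG : Module.Finite ℤ (Additive A) := by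
    rw [Module.Finite.iff_addGroup_fg]
    have h1 : Group.FG A := (Group.fg_iff_subgroup_fg A).2 hfg
    exact GroupFG.iff_add_fg.1 h1
  have hTF : Module.IsTorsionFree ℤ (Additive A) := by
    refine Module.IsTorsionFree.of_smul_eq_zero fun n x hx => ?_
    by_contra hcon
    push Not at hcon
    obtain ⟨hn, hx0⟩ := hcon
    have h1 : (x.toMul : G) ≠ 1 := by
      intro h
      apply hx0
      have : x.toMul = 1 := Subtype.ext h
      exact this
    apply htf _ x.toMul.2 h1
    have h2 : (x.toMul : G) ^ n = 1 := by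
      have := congrArg (fun y : Additive A => ((y.toMul : A) : G)) hx
      simpa using this
    rw [isOfFinOrder_iff_zpow_eq_one]
    exact ⟨n, hn, h2⟩
  let t : A →* A :=
    { toFun := fun a => ⟨(σ ^ D) a, (hA a).2 a.2⟩
      map_one' := Subtype.ext (by simp)
      map_mul' := fun a b => Subtype.ext (by simp) }
  let s : A →* A :=
    { toFun := fun a => ⟨(σ ^ D)⁻¹ a, (hA _).1 (by rw [MulAut.apply_inv_self]; exact a.2)⟩
      map_one' := Subtype.ext (by simp)
      map_mul' := fun a b => Subtype.ext (by simp) }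
  let T : Module.End ℤ (Additive A) := AddMonoidHom.toIntLinearMap (MonoidHom.toAdditive t)
  let S : Module.End ℤ (Additive A) := AddMonoidHom.toIntLinearMap (MonoidHom.toAdditive s)
  have hTS : T * S = 1 := by
    refine LinearMap.ext fun x => ?_
    show Additive.ofMul (t (s x.toMul)) = x
    have : t (s x.toMul) = x.toMul := Subtype.ext (MulAut.apply_inv_self _ _ _)
    rw [this]
    rfl
  have hTpow : ∀ (n : ℕ) (x : A), (((T ^ n) (Additive.ofMul x)).toMul : G) = (σ ^ (D * n)) x := by
    intro n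
    induction n with
    | zero => intro x; simp
    | succ n ih =>
      intro x
      rw [pow_succ, Module.End.mul_apply]
      have h1 : T (Additive.ofMul x) = Additive.ofMul (t x) := rfl
      rw [h1, ih, Nat.mul_succ, pow_add, MulAut.mul_apply]
      rfl
  rcases quasi_or_big T S hTS (Additive.ofMul ⟨c, hcA⟩) with ⟨q, hq, k, hk⟩ | ⟨μ, hμ, hP⟩
  · left
    refine ⟨q, hq, k, ?_⟩
    have h1 : ∀ (k : ℕ) (x : A), (((((T ^ q - 1) ^ k) (Additive.ofMul x)).toMul : A) : G) =
        ((Df σ (D * q))^[k]) (x : G) := by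
      intro k
      induction k with
      | zero => intro x; rfl
      | succ k ih =>
        intro x
        have h2 : (T ^ q - 1) (Additive.ofMul x) =
            Additive.ofMul (⟨Df σ (D * q) x, Df_mem σ (pow_mem_iff σ hA q) 1 x.2⟩ : A) := by
          rw [LinearMap.sub_apply, Module.End.one_apply]
          have h3 : ((T ^ q) (Additive.ofMul x)).toMul =
              ⟨(σ ^ (D * q)) x, (pow_mem_iff σ hA q x).2 x.2⟩ := Subtype.ext (hTpow q x)
          have h4 : (T ^ q) (Additive.ofMul x) = Additive.ofMul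
              (⟨(σ ^ (D * q)) x, (pow_mem_iff σ hA q x).2 x.2⟩ : A) := h3
          rw [h4, ← ofMul_div]
          congr 1
          rw [div_eq_mul_inv, mul_comm]
          exact Subtype.ext rfl
        rw [pow_succ, Module.End.mul_apply, h2, ih, Function.iterate_succ_apply]
    have h2 := h1 k ⟨c, hcA⟩
    rw [hk] at h2
    exact h2.symm
  · right
    obtain ⟨R, ℓ, hℓ⟩ := exists_functional T (Additive.ofMul ⟨c, hcA⟩) μ hP
    have hmem : ∀ i : ℕ, (T ^ i) (Additive.ofMul ⟨c, hcA⟩) ∈ R := by
      intro i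
      obtain ⟨h1, -⟩ := hℓ (X ^ i)
      simpa using h1
    refine ⟨μ, hμ, Multiplicative R, inferInstance,
      { toFun := fun x => (((x.toAdd : R) : Additive A).toMul : G)
        map_one' := rfl
        map_mul' := fun x y => rfl }, AddMonoidHom.toMultiplicative ℓ,
      fun i => Multiplicative.ofAdd ⟨_, hmem i⟩, ?_, fun i => ⟨hTpow i ⟨c, hcA⟩, ?_⟩⟩
    · intro x y hxy
      have h1 : ((x.toAdd : R) : Additive A).toMul = ((y.toAdd : R) : Additive A).toMul :=
        Subtype.ext hxy
      have h2 : (x.toAdd : R) = y.toAdd := Subtype.ext h1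
      exact h2
    · obtain ⟨h1, h2⟩ := hℓ (X ^ i)
      have h3 : ℓ ⟨(T ^ i) (Additive.ofMul ⟨c, hcA⟩), hmem i⟩ = μ ^ i := by
        have e : aeval T (X ^ i : ℤ[X]) (Additive.ofMul (⟨c, hcA⟩ : A)) =
            (T ^ i) (Additive.ofMul ⟨c, hcA⟩) := by simp
        have h4 : aeval μ (X ^ i : ℤ[X]) = μ ^ i := by simp
        rw [← h4, ← h2]
        congr 1
        exact Subtype.ext e.symm
      exact congrArg Multiplicative.ofAdd h3

end lattice

end Pool.Agent.H258.RH
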