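import Pool.Agent.H258.RH.EntF

/-! Zero entropy implies quasi-unipotence on finitely generated abelian subgroups. -/

set_option autoImplicit false
set_option linter.unusedSectionVars false

open Filter Topology Polynomial Finset

namespace Pool.Agent.H258.RH

open Pool.Agent.Helper188.NCM Pool.Agent.H12RS

/-- the orbit of `x` is approximated through matrix algebras of subexponential size -/
def Ent0 {A : Type} [CStarAlgebra A] {Y : Type} [NormedAddCommGroup Y] [NormedSpace ℂ Y]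
    (π : A →ₗ[ℂ] Y) (α : A →⋆ₐ[ℂ] A) (x : A) : Prop :=
  ∀ h δ : ℝ, 0 < h → 0 < δ → ∃ᶠ n : ℕ in atTop, ∃ k : ℕ, (k : ℝ) ≤ Real.exp (h * n) ∧
    ∃ (φ : A →ₗ[ℂ] Mk k) (ψ : Mk k →ₗ[ℂ] Y), (∀ a, ‖φ a‖ ≤ ‖a‖) ∧ (∀ b, ‖ψ b‖ ≤ ‖b‖) ∧
      ∀ j < n, ‖ψ (φ ((α^[j]) x)) - π ((α^[j]) x)‖ ≤ δ

variable {A G : Type} [CStarAlgebra A] [Group G] {u : G → A} {τ : A →L[ℂ] ℂ}

theorem sgn_abs {m : ℕ} (T : Finset (Fin m)) (j : Fin m) : ‖((sgn T j : ℝ) : ℂ)‖ = 1 := by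
  rw [Complex.norm_real, sgn]
  split_ifs <;> simp

theorem mk_rsmul {k : ℕ} (r : ℝ) (B : Mk k) : r • B = (r : ℂ) • B := by
  ext v
  simp

/-- lower bound for the sums along a lacunary orbit -/
theorem lower_bound (hu : W726.NS.RedAlg u τ) (hmul : ∀ g h, u (g * h) = u g * u h)
    {σ : MulAut G} {α : A →⋆ₐ[ℂ] A} (hα : ∀ g, ∃ c : ℂ, ‖c‖ = 1 ∧ α (u g) = c • u (σ g))
    {D : ℕ} {c : G} {μ : ℂ} {M : Type} [CommGroup M] (j : M →* G) (hj : Function.Injective j)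
    (ℓ : M →* Multiplicative ℂ) (m : ℕ → M)
    (hm : ∀ i, j (m i) = (σ ^ (D * i)) c ∧ ℓ (m i) = Multiplicative.ofAdd (μ ^ i))
    {q : ℕ} (hq : 26 ≤ ‖μ ^ q‖) (J : ℕ) (ζ : Fin J → ℂ) (hζ : ∀ i, ‖ζ i‖ = 1) :
    (J : ℝ) / 2 ≤ ‖∑ i : Fin J, ζ i • (α^[D * q * i]) (u c)‖ := by
  choose s hs hs' using fun i : Fin J => cov_iter hα (D * q * i) c
  -- the phases
  have hz1 : ∀ i : Fin J, ‖ζ i * s i‖ = 1 := fun i => by rw [norm_mul, hζ, hs, one_mul]
  have hinv : ∀ i : Fin J, ∃ θ : ℝ, (ζ i * s i) * ee θ = 1 := by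
    intro i
    obtain ⟨θ, hθ⟩ := exists_ee (z := (ζ i * s i)⁻¹) (by rw [norm_inv, hz1, inv_one])
    refine ⟨θ, ?_⟩
    rw [← hθ]
    refine mul_inv_cancel₀ ?_
    intro h0
    have := hz1 i
    rw [h0, norm_zero] at this
    exact zero_ne_one this
  choose θ hθ using hinv
  obtain ⟨t, ht⟩ := exists_t (μ ^ q) hq (fun i => if h : i < J then θ ⟨i, h⟩ else 0) J
  let χ : M →* ℂ :=
    { toFun := fun x => ee (t * (ℓ x).toAdd).re
      map_one' := by simp [ee_zero]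
      map_mul' := fun x y => by
        rw [map_mul, toAdd_mul, mul_add, Complex.add_re, ee_add] }
  have hχ : ∀ x, ‖χ x‖ = 1 := fun x => norm_ee _
  have h1 := char_bound j hj hu hmul χ hχ (fun i : Fin J => m (q * i)) (fun i => ζ i * s i)
    (fun i => (hz1 i).le)
  have e1 : ∑ i : Fin J, (ζ i * s i) • u (j (m (q * i))) =
      ∑ i : Fin J, ζ i • (α^[D * q * i]) (u c) := by
    refine Finset.sum_congr rfl fun i _ => ?_
    rw [hs' i, smul_smul, (hm (q * i)).1, mul_assoc]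
  rw [e1] at h1
  refine le_trans ?_ h1
  refine le_trans ?_ (Complex.re_le_norm _)
  rw [Complex.re_sum]
  have h2 : ∀ i ∈ (Finset.univ : Finset (Fin J)), (1 : ℝ) / 2 ≤ (ζ i * s i * χ (m (q * i))).re := by
    intro i _
    obtain ⟨n, hn⟩ := ht i i.2
    rw [dif_pos i.2] at hn
    set e : ℝ := (t * (μ ^ q) ^ (i : ℕ)).re - θ i - n with he
    have h3 : |e| ≤ 1 / 50 := by
      refine hn.trans ?_
      have : 0 ≤ (‖μ ^ q‖⁻¹) ^ (J - 1 - i) := by positivity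
      linarith
    have h4 : χ (m (q * i)) = ee (θ i) * ee e := by
      show ee (t * (ℓ (m (q * i))).toAdd).re = _
      rw [(hm (q * i)).2, toAdd_ofAdd, pow_mul, ← ee_add]
      have : (t * (μ ^ q) ^ (i : ℕ)).re = (θ i + e) + n := by rw [he]; ring
      rw [this, ee_int_add]
    rw [h4, ← mul_assoc, hθ, one_mul]
    exact half_le_ee_re h3
  refine le_trans (le_of_eq ?_) (Finset.sum_le_sum h2)
  rw [Finset.sum_const, Finset.card_univ, Fintype.card_fin, nsmul_eq_mul]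
  ring

/-- **Zero entropy implies quasi-unipotence.** -/
theorem unipotent_of_ent0 (hu : W726.NS.RedAlg u τ) (hmul : ∀ g h, u (g * h) = u g * u h)
    {σ : MulAut G} {α : A →⋆ₐ[ℂ] A} (hα : ∀ g, ∃ c : ℂ, ‖c‖ = 1 ∧ α (u g) = c • u (σ g))
    {Y : Type} [NormedAddCommGroup Y] [NormedSpace ℂ Y] (π : A →ₗ[ℂ] Y) (hπ : ∀ a, ‖π a‖ = ‖a‖)
    {D : ℕ} (hD : 0 < D) {C : Subgroup G}
    (hC : ∀ z, (σ ^ D) z ∈ C ↔ z ∈ C) (hc : ∀ x ∈ C, ∀ y ∈ C, Commute x y) (hfg : C.FG)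
    (htf : ∀ x ∈ C, x ≠ 1 → ¬ IsOfFinOrder x) {c : G} (hcA : c ∈ C)
    (hent : Ent0 π α (u c)) : ∃ q : ℕ, 0 < q ∧ ∃ k : ℕ, ((Df σ (D * q))^[k]) c = 1 := by
  rcases lattice_alt σ hC hc hfg htf hcA with h | ⟨μ, hμ, M, iM, j, ℓ, m, hj, hm⟩
  · exact h
  exfalso
  obtain ⟨q, hq⟩ := pow_unbounded_of_one_lt 26 hμ
  rw [← norm_pow] at hq
  have hq0 : 0 < q := by
    rcases Nat.eq_zero_or_pos q with h0 | h0
    · rw [h0] at hq
      norm_num at hq
    · exact h0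
  set p : ℕ := D * q with hp
  have hp0 : 0 < p := Nat.mul_pos hD hq0
  have hpR : (0 : ℝ) < p := by exact_mod_cast hp0
  set h : ℝ := 1 / (2048 * p) with hh
  have hh0 : 0 < h := by positivity
  have hbig : ∀ᶠ n : ℕ in atTop, p * 2048 ≤ n := eventually_ge_atTop _
  obtain ⟨n, ⟨k, hk, φ, ψ, hφ, hψ, happ⟩, hn⟩ :=
    ((hent h (1 / 8) hh0 (by norm_num)).and_eventually hbig).exists
  set J : ℕ := n / p with hJ
  have hJ1 : 1024 ≤ J := by
    rw [hJ, Nat.le_div_iff_mul_le hp0]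
    omega
  have hJn : n < p * (J + 1) := by
    rw [hJ]
    exact Nat.lt_mul_div_succ n hp0
  have hJR : (1024 : ℝ) ≤ J := by exact_mod_cast hJ1
  have hnR : (n : ℝ) ≤ 2 * p * J := by
    have h1 : (n : ℝ) < p * (J + 1) := by exact_mod_cast hJn
    nlinarith
  -- the matrices
  set a : Fin J → Mk k := fun i => φ ((α^[p * i]) (u c)) with ha
  have hnu : ∀ i : ℕ, ‖(α^[i]) (u c)‖ ≤ 1 := fun i =>
    (TH261.AB.iter_norm α i _).trans (norm_unitary_le (hu.unit c))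
  have ha1 : ∀ i, ‖a i‖ ≤ 1 := fun i => (hφ _).trans (hnu _)
  obtain ⟨T, hT⟩ := exists_signs (k := k) (m := J) (by omega) (h := 1 / 1024)
    (by rw [one_div, inv_mul_eq_div, le_div_iff₀ (by norm_num)]; linarith)
    (hk.trans (Real.exp_le_exp.2 (by
      rw [hh]
      calc 1 / (2048 * (p : ℝ)) * n ≤ 1 / (2048 * (p : ℝ)) * (2 * p * J) := by gcongr
        _ = 1 / 1024 * J := by field_simp; norm_num))) a ha1
  have hsq : Real.sqrt (1 / 1024) = 1 / 32 := by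
    rw [show (1 : ℝ) / 1024 = (1 / 32) ^ 2 by norm_num]
    exact Real.sqrt_sq (by norm_num)
  rw [hsq] at hT
  -- the element
  set y : A := ∑ i : Fin J, ((sgn T i : ℝ) : ℂ) • (α^[p * i]) (u c) with hy
  have hlow := lower_bound hu hmul hα j hj ℓ m hm hq.le J (fun i => ((sgn T i : ℝ) : ℂ))
    (fun i => sgn_abs T i)
  have hlow' : (J : ℝ) / 2 ≤ ‖y‖ := hlow
  have hup : ‖y‖ ≤ 1 / 4 * J + 1 / 8 * J := by
    rw [← hπ y]
    have e1 : π y = ψ (∑ i : Fin J, sgn T i • a i) -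
        ∑ i : Fin J, ((sgn T i : ℝ) : ℂ) • (ψ (φ ((α^[p * i]) (u c))) - π ((α^[p * i]) (u c))) := by
      rw [hy, map_sum, map_sum, ← Finset.sum_sub_distrib]
      refine Finset.sum_congr rfl fun i _ => ?_
      rw [mk_rsmul, map_smul, map_smul, smul_sub, sub_sub_cancel]
    rw [e1]
    refine (norm_sub_le _ _).trans ?_
    refine add_le_add ((hψ _).trans (hT.trans (le_of_eq (by norm_num)))) ?_
    refine (norm_sum_le _ _).trans ?_
    calc ∑ i : Fin J, ‖((sgn T i : ℝ) : ℂ) • (ψ (φ ((α^[p * i]) (u c))) - π ((α^[p * i]) (u c)))‖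
        ≤ ∑ _i : Fin J, (1 : ℝ) / 8 := by
          refine Finset.sum_le_sum fun i _ => ?_
          rw [norm_smul, sgn_abs, one_mul]
          refine happ _ ?_
          calc p * (i : ℕ) < p * J := Nat.mul_lt_mul_of_pos_left i.2 hp0
            _ ≤ n := Nat.mul_div_le n p
      _ = 1 / 8 * J := by
          rw [Finset.sum_const, Finset.card_univ, Fintype.card_fin, nsmul_eq_mul]
          ring
  linarith

end Pool.Agent.H258.RH
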