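import Pool.Agent.H258.RH.Main

/-! Final forms. -/

set_option autoImplicit false
set_option linter.unusedSectionVars false

open Finset Filter Topology InnerProductSpace

namespace Pool.Agent.H258.RH

open Pool.Agent.Helper188.NCM Pool.Agent.TH261.AB

variable {U : Type} [CStarAlgebra U]

theorem wt_zero (τ : ℝ) : wt τ 0 = 0 := by
  rw [wt]
  simp [mob]

/-- the final form: functionals -/
theorem SW.fun {τ : ℝ} {β : U →⋆ₐ[ℂ] U} {x : U} (h : SW (wt τ) β x) (ρ : U →L[ℂ] ℂ) :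
    Tendsto (fun N : ℕ => (1 / (N : ℂ)) *
      ∑ n ∈ Finset.Icc 1 N, wt τ n * ρ ((β^[n]) x)) atTop (𝓝 0) := by
  obtain ⟨K, _, _, _, π, hπ⟩ := H759R2.Kad.prove7_rep H759R2.Kad.prove7_jord
    (H759R2.Kad.prove7_univ H759R2.Kad.prove7_gns) U
  obtain ⟨ζ, ω, hρ, -⟩ := hπ ρ.toLinearMap ‖ρ‖ (norm_nonneg _) fun a => ρ.le_opNorm a
  have hρ' : ∀ a, ρ a = ⟪ζ, π a ω⟫_ℂ := hρ
  have h2 := (continuous_const.inner continuous_id : Continuous fun y : K =>
    inner ℂ ζ y).tendsto 0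
  rw [inner_zero_right] at h2
  have h3 : Tendsto (fun N : ℕ => (1 / (N : ℂ)) •
      ∑ n ∈ Finset.Icc 1 N, wt τ n • π ((β^[n]) x) ω) atTop (𝓝 0) :=
    vav_Icc (a := fun n => wt τ n • π ((β^[n]) x) ω) (by rw [wt_zero, zero_smul]) (h K π ω)
  refine (h2.comp h3).congr fun N => ?_
  simp only [Function.comp_apply]
  rw [inner_smul_right, inner_sum]
  congr 1
  refine Finset.sum_congr rfl fun j _ => ?_
  rw [inner_smul_right, hρ']

/-- the cyclic case -/
theorem cyclic_case {G : Type} [Group G] (σ : MulAut G) {D : ℕ} {A : Subgroup G}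
    (hA : ∀ z, (σ ^ D) z ∈ A ↔ z ∈ A) (hc : IsCyclic A) {c : G} (hcA : c ∈ A) :
    ∃ q : ℕ, 0 < q ∧ ∃ k : ℕ, ((Df σ (D * q))^[k]) c = 1 := by
  obtain ⟨⟨a, ha⟩, hgen⟩ := hc.exists_generator
  have hg : ∀ x ∈ A, ∃ i : ℤ, a ^ i = x := by
    intro x hx
    obtain ⟨i, hi⟩ := Subgroup.mem_zpowers_iff.1 (hgen ⟨x, hx⟩)
    exact ⟨i, congrArg Subtype.val hi⟩
  suffices h : ∃ q : ℕ, 0 < q ∧ (σ ^ (D * q)) a = a by
    obtain ⟨q, hq, h1⟩ := h
    obtain ⟨i, rfl⟩ := hg c hcA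
    refine ⟨q, hq, 1, ?_⟩
    rw [Function.iterate_one, Df, map_zpow, h1, inv_mul_cancel]
  obtain ⟨s, hs⟩ := hg _ ((hA a).2 ha)
  obtain ⟨b, hb⟩ : ∃ b, (σ ^ D) b = a := ⟨(σ ^ D)⁻¹ a, MulAut.apply_inv_self _ _ _⟩
  have hbA : b ∈ A := (hA b).1 (by rw [hb]; exact ha)
  obtain ⟨t, ht⟩ := hg b hbA
  have hst : a ^ (s * t) = a := by
    rw [zpow_mul, hs, ← map_zpow, ht, hb]
  by_cases hfin : IsOfFinOrder a
  · -- finite order: pigeonhole
    have hfinA : Set.Finite (Subgroup.zpowers a : Set G) := finite_zpowers.2 hfin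
    have hmem : ∀ j : ℕ, (σ ^ (D * j)) a ∈ (Subgroup.zpowers a : Set G) := by
      intro j
      obtain ⟨i, hi⟩ := hg _ ((pow_mem_iff σ hA j a).2 ha)
      exact ⟨i, hi⟩
    have : ¬ Function.Injective (fun j : ℕ => (σ ^ (D * j)) a) := by
      intro hinj
      exact Set.infinite_range_of_injective hinj (hfinA.subset (by
        rintro _ ⟨j, rfl⟩
        exact hmem j))
    obtain ⟨i, j, hij, hne⟩ : ∃ i j : ℕ, (σ ^ (D * i)) a = (σ ^ (D * j)) a ∧ i ≠ j := by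
      simpa [Function.Injective] using this
    wlog hlt : i < j generalizing i j
    · exact this j i hij.symm hne.symm (by omega)
    obtain ⟨m, rfl⟩ : ∃ m, j = i + m := ⟨j - i, by omega⟩
    refine ⟨m, by omega, ?_⟩
    rw [Nat.mul_add, pow_add, MulAut.mul_apply] at hij
    exact ((σ ^ (D * i)).injective hij).symm
  · have h1 : s * t = 1 := by
      have := W726.NS.zpow_inj_of_infinite hfin (i := s * t) (j := 1) (by rw [hst, zpow_one])
      exact this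
    have h2 : s * s = 1 := by
      rcases Int.eq_one_or_neg_one_of_mul_eq_one h1 with h3 | h3 <;> rw [h3] <;> norm_num
    refine ⟨2, two_pos, ?_⟩
    rw [Nat.mul_comm, Nat.succ_mul, Nat.one_mul, pow_add, MulAut.mul_apply, ← hs, map_zpow, ← hs,
      ← zpow_mul, h2, zpow_one]

end Pool.Agent.H258.RH
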