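import Pool.Graph.R_seed8.TH261.AB.Final
import Pool.Agent.H258.PA.UD

/-! Möbius orthogonality of the orbits of group elements `g` such that `g⁻¹ σᵐ(g)` generates, with
its iterated differences, a commutative group on which `σᵐ` is unipotent. -/

set_option autoImplicit false
set_option linter.unusedSectionVars false

open Finset Filter Topology

namespace Pool.Agent.H258.RH

open Pool.Agent.Helper188.NCM Pool.Agent.TH261.AB

variable {U : Type} [CStarAlgebra U] {G : Type} [Group G] {u : G → U}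

/-- unitaries which multiply like the elements of a group up to scalars -/
structure TwG (u : G → U) : Prop where
  unit : ∀ g, u g ∈ unitary U
  mul : ∀ g h, ∃ c : ℂ, ‖c‖ = 1 ∧ u (g * h) = c • (u g * u h)

theorem TwG.one (h : TwG u) : ∃ c : ℂ, ‖c‖ = 1 ∧ u 1 = c • 1 := by
  obtain ⟨c, hc, h1⟩ := h.mul 1 1
  rw [mul_one] at h1
  have h2 := congrArg (fun x => star (u 1) * x) h1
  simp only [mul_smul_comm, ← mul_assoc] at h2
  rw [Unitary.star_mul_self_of_mem (h.unit 1), one_mul] at h2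
  refine ⟨c⁻¹, inv_norm_one hc, ?_⟩
  rw [h2, smul_smul, inv_mul_cancel₀ (ne_zero_of_norm hc), one_smul]

theorem TwG.comm (h : TwG u) {g g' : G} (hg : Commute g g') :
    ∃ c : ℂ, ‖c‖ = 1 ∧ u g * u g' = c • (u g' * u g) := by
  obtain ⟨c, hc, h1⟩ := h.mul g g'
  obtain ⟨c', hc', h2⟩ := h.mul g' g
  refine ⟨c⁻¹ * c', by rw [norm_mul, inv_norm_one hc, hc', one_mul], ?_⟩
  rw [mul_smul, ← h2, ← hg.eq, h1, smul_smul, inv_mul_cancel₀ (ne_zero_of_norm hc), one_smul]

theorem cov_iter {α : U →⋆ₐ[ℂ] U} {σ : MulAut G}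
    (hα : ∀ g, ∃ c : ℂ, ‖c‖ = 1 ∧ α (u g) = c • u (σ g)) (n : ℕ) (g : G) :
    ∃ c : ℂ, ‖c‖ = 1 ∧ (α^[n]) (u g) = c • u ((σ ^ n) g) := by
  induction n generalizing g with
  | zero => exact ⟨1, by simp, by simp⟩
  | succ n ih =>
    obtain ⟨c, hc, h1⟩ := hα g
    obtain ⟨c', hc', h2⟩ := ih (σ g)
    refine ⟨c * c', by rw [norm_mul, hc, hc', one_mul], ?_⟩
    rw [Function.iterate_succ_apply, h1, iter_smul, h2, smul_smul, pow_succ, MulAut.mul_apply]

/-- the difference map of `σ ^ m` -/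
def Df (σ : MulAut G) (m : ℕ) (g : G) : G := g⁻¹ * (σ ^ m) g

theorem pow_comm_apply (σ : MulAut G) (a b : ℕ) (z : G) :
    (σ ^ a) ((σ ^ b) z) = (σ ^ b) ((σ ^ a) z) := by
  rw [← MulAut.mul_apply, ← pow_add, add_comm, pow_add, MulAut.mul_apply]

theorem Df_comm (σ : MulAut G) (m r k : ℕ) (g : G) :
    ((Df σ m)^[k]) ((σ ^ r) g) = (σ ^ r) (((Df σ m)^[k]) g) := by
  induction k generalizing g with
  | zero => rfl
  | succ k ih =>
    rw [Function.iterate_succ_apply, Function.iterate_succ_apply, ← ih]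
    congr 1
    rw [Df, Df, map_mul, map_inv, pow_comm_apply]

theorem Df_mul (σ : MulAut G) (m : ℕ) (g : G) : (σ ^ m) g = g * Df σ m g := by
  rw [Df, mul_inv_cancel_left]

/-- Möbius orthogonality of the orbit of `x`, strongly in all representations, with rotations -/
def SD (α : U →⋆ₐ[ℂ] U) (x : U) : Prop :=
  ∀ (τ : ℝ) (K : Type) [NormedAddCommGroup K] [InnerProductSpace ℂ K] [CompleteSpace K]
    (π : U →⋆ₐ[ℂ] (K →L[ℂ] K)) (ξ : K),
    Tendsto (vav fun n => mob n • (ee ((n : ℝ) * τ) • π ((α^[n]) x) ξ)) atTop (𝓝 0)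

theorem sd_term_le (β : U →⋆ₐ[ℂ] U) (x : U) (τ : ℝ) {K : Type} [NormedAddCommGroup K]
    [InnerProductSpace ℂ K] [CompleteSpace K] (π : U →⋆ₐ[ℂ] (K →L[ℂ] K)) (ξ : K) (n : ℕ) :
    ‖mob n • (ee ((n : ℝ) * τ) • π ((β^[n]) x) ξ)‖ ≤ ‖x‖ * ‖ξ‖ := by
  have h := term_le β x π ξ n
  rw [norm_smul, norm_smul, norm_ee, one_mul, ← norm_smul]
  exact h

theorem SD.of_tame (hu : TwG u) {α : U →⋆ₐ[ℂ] U} {σ : MulAut G}
    (hα : ∀ g, ∃ c : ℂ, ‖c‖ = 1 ∧ α (u g) = c • u (σ g)) (g : G) {m : ℕ} (hm : 0 < m) (k : ℕ)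
    (hk : ((Df σ m)^[k + 1]) g = 1)
    (hcomm : ∀ i j, Commute (((Df σ m)^[i + 1]) g) (((Df σ m)^[j + 1]) g)) : SD α (u g) := by
  intro τ K _ _ _ π ξ
  refine vav_of_residues (by positivity) (sd_term_le α (u g) τ π ξ) hm fun r hr => ?_
  set h : ℕ → G := fun i => ((Df σ m)^[i]) ((σ ^ r) g) with hh
  have hhk : h (k + 1) = 1 := by rw [hh]; simp only; rw [Df_comm, hk, map_one]
  have hcm : ∀ i j, Commute (h (i + 1)) (h (j + 1)) := by
    intro i j
    rw [hh]
    simp only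
    rw [Df_comm, Df_comm]
    exact (hcomm i j).map (σ ^ r)
  set Op : ℕ → (K ≃ₗᵢ[ℂ] K) := fun i => match i with
    | 0 => LinearIsometryEquiv.refl ℂ K
    | i + 1 => opU π (u (h (i + 1))) (hu.unit _) with hOp
  have hcommS : ∀ i j, CommS (Op i) (Op j) := by
    intro i j
    rcases i with - | i
    · exact ⟨1, by simp, fun x => by simp [hOp]⟩
    rcases j with - | j
    · exact ⟨1, by simp, fun x => by simp [hOp]⟩
    obtain ⟨c, hc, h1⟩ := hu.comm (hcm i j)
    refine ⟨c, hc, fun x => ?_⟩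
    simp only [hOp, opU_apply]
    rw [← mul_apply_eq_comp, ← mul_apply_eq_comp, ← map_mul, h1, map_smul,
      map_mul, smul_apply]
  obtain ⟨A, iA, V, B, a, hV, ha, -⟩ :=
    exists_biproj Op (k + 1 + 1) fun i _ j _ => hcommS i j
  -- the step
  have hstep : ∀ i, ∃ θ : ℝ, (α^[m]) (u (h i)) = ee θ • (u (h i) * u (h (i + 1))) := by
    intro i
    obtain ⟨c, hc, h1⟩ := cov_iter hα m (h i)
    obtain ⟨c', hc', h2⟩ := hu.mul (h i) (h (i + 1))
    have e : (σ ^ m) (h i) = h i * h (i + 1) := by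
      rw [Df_mul, hh]
      simp only [Function.iterate_succ_apply']
    obtain ⟨θ, hθ⟩ := exists_ee (z := c * c') (by rw [norm_mul, hc, hc', one_mul])
    refine ⟨θ, ?_⟩
    rw [h1, e, h2, smul_smul, hθ]
  choose θ hθ using hstep
  set X : ℕ → ℕ → K → K := fun i n x => match i with
    | 0 => π (star (u (h 0))) (π ((α^[m * n]) (u (h 0))) x)
    | i + 1 => π ((α^[m * n]) (u (h (i + 1)))) x with hXdef
  obtain ⟨R, hR, hX⟩ := orbit_formula hV (k + 1) X a θ
    (fun i hi x => by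
      rw [ha i (by omega)]
      rcases i with - | i
      · simp only [hXdef, hOp, mul_zero, Function.iterate_zero, id]
        rw [← mul_apply_eq_comp, ← map_mul, Unitary.star_mul_self_of_mem (hu.unit _), map_one]
        rfl
      · simp only [hXdef, hOp, mul_zero, Function.iterate_zero, id]
        rw [opU_apply])
    (fun i _ n x => by
      rcases i with - | i
      · simp only [hXdef]
        rw [Nat.mul_succ, Function.iterate_add_apply, hθ, iter_smul, TH261.AB.iter_mul, map_smul, map_mul,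
          smul_apply, map_smul]
        rfl
      · simp only [hXdef]
        rw [Nat.mul_succ, Function.iterate_add_apply, hθ, iter_smul, TH261.AB.iter_mul, map_smul, map_mul]
        rfl)
    (fun n x => by
      obtain ⟨c, hc, h1⟩ := hu.one
      simp only [hXdef]
      rw [ha (k + 1) (by omega)]
      simp only [hOp]
      rw [opU_apply, hhk, h1, iter_smul, iter_one])
  obtain ⟨c, hc, h1⟩ := cov_iter hα r g
  obtain ⟨τ', rfl⟩ := exists_ee hc
  have h2 := main_poly (r := r) hV hm hr (k + 1) a (fun j => R j + (((m : ℝ) * j + r) * τ + τ'))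
    (hR.add ((((IsPF.const (m : ℝ)).mul IsPF.id).add (IsPF.const (r : ℝ))).mul (IsPF.const τ)
      |>.add (IsPF.const τ'))) ξ
  have h4 := ((π (u (h 0))).continuous.tendsto 0).comp h2
  rw [map_zero] at h4
  refine h4.congr fun N => ?_
  rw [Function.comp, TN, vav, map_smul, map_sum]
  congr 1
  refine Finset.sum_congr rfl fun j _ => ?_
  rw [map_smul]
  congr 1
  have h6 : π (ee τ' • (α^[m * j]) (u ((σ ^ r) g))) ξ =
      ee τ' • π ((α^[m * j]) (u ((σ ^ r) g))) ξ := by
    rw [map_smul π, smul_apply]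
  rw [Function.iterate_add_apply, h1, iter_smul, h6]
  have h3 := hX j ξ
  have h5 : π ((α^[m * j]) (u ((σ ^ r) g))) ξ = π (u (h 0)) (X 0 j ξ) := by
    simp only [hXdef]
    rw [← mul_apply_eq_comp, ← map_mul, Unitary.mul_star_self_of_mem (hu.unit _), map_one]
    rfl
  rw [h5, h3, map_smul, map_smul, LinearIsometryEquiv.coe_toLinearIsometry, smul_smul, smul_smul,
    ← ee_add, ← ee_add]
  congr 2
  push_cast
  ring

end Pool.Agent.H258.RH
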